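import Pool.Agent.H84.CA.Ac

/-!
# Chapter LT: `W⟦X_1, .., X_m⟧` is complete for the ideal `(P, X_1, .., X_m)`, `W` complete for `P`

PROOF.  `mem_pow`: `⊆`: the right hand side is an ideal, multiplicative in `N`, and contains `mP` for `N = 1`.
`⊇`: `f = ∑_(|d| < N) coeff d f X ^ d + f'`, `f' ∈ (X) ^ N` (`H84.CA.mem_vI_pow`), a finite sum;
`C (P ^ i) ⊆ mP ^ i`, `X ^ d ∈ mP ^ |d|`.  `ac_mP`: coefficientwise (`d` fixed: a Cauchy sequence for `mP` gives a Cauchy
sequence of the coefficients for `P`, after a shift of the index by `|d|`).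
-/

open MvPowerSeries

namespace Pool.Agent.H86.LT

variable {W : Type*} [CommRing W]

/-- the ideal `(P, X_1, .., X_m)` -/
noncomputable def mP (m : ℕ) (P : Ideal W) : Ideal (MvPowerSeries (Fin m) W) :=
  P.comap (constantCoeff (σ := Fin m) (R := W))

theorem mem_mP {m : ℕ} {P : Ideal W} {f : MvPowerSeries (Fin m) W} :
    f ∈ mP m P ↔ constantCoeff f ∈ P := Iff.rfl

private theorem pow_sub {m : ℕ} {P : Ideal W} {N : ℕ} {f : MvPowerSeries (Fin m) W}
    (hf : f ∈ mP m P ^ N) (d : Fin m →₀ ℕ) (hd : d.degree < N) :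
    coeff d f ∈ P ^ (N - d.degree) := by
  obtain ⟨S, hS⟩ : ∃ S : ℕ → Ideal (MvPowerSeries (Fin m) W), ∀ N f, f ∈ S N ↔
      ∀ d : Fin m →₀ ℕ, d.degree < N → coeff d f ∈ P ^ (N - d.degree) := by
    refine ⟨fun N => { carrier := {f | ∀ d : Fin m →₀ ℕ, d.degree < N → coeff d f ∈ P ^ (N - d.degree)}
                       add_mem' := ?_
                       zero_mem' := ?_
                       smul_mem' := ?_ }, fun N f => Iff.rfl⟩
    · intro a b ha hb d hd
      rw [map_add]
      exact Ideal.add_mem _ (ha d hd) (hb d hd)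
    · intro d _
      rw [map_zero]
      exact Ideal.zero_mem _
    · intro c f hf d hd
      rw [smul_eq_mul, coeff_mul]
      refine Ideal.sum_mem _ fun q hq => ?_
      have h1 : q.1 + q.2 = d := Finset.HasAntidiagonal.mem_antidiagonal.1 hq
      have h3 : q.1.degree + q.2.degree = d.degree := by rw [← map_add, h1]
      exact Ideal.mul_mem_left _ _ (Ideal.pow_le_pow_right (by omega) (hf q.2 (by omega)))
  have hmul : ∀ (N : ℕ) (f g : MvPowerSeries (Fin m) W), f ∈ S N → g ∈ mP m P →
      f * g ∈ S (N + 1) := by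
    intro N f g hf hg
    rw [hS] at hf ⊢
    intro d hd
    rw [coeff_mul]
    refine Ideal.sum_mem _ fun q hq => ?_
    have h1 : q.1 + q.2 = d := Finset.HasAntidiagonal.mem_antidiagonal.1 hq
    have h3 : q.1.degree + q.2.degree = d.degree := by rw [← map_add, h1]
    rcases Nat.eq_zero_or_pos q.2.degree with h0 | h0
    · have h2 : q.2 = 0 := (Finsupp.degree_eq_zero_iff q.2).1 h0
      have h4 : coeff q.2 g ∈ P := by
        rw [h2, coeff_zero_eq_constantCoeff_apply]
        exact hg
      rcases lt_or_ge q.1.degree N with h5 | h5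
      · have h6 : N + 1 - d.degree = (N - q.1.degree) + 1 := by omega
        rw [h6, pow_succ]
        exact Ideal.mul_mem_mul (hf q.1 h5) h4
      · have h6 : N + 1 - d.degree = 1 := by omega
        rw [h6, pow_one]
        exact Ideal.mul_mem_left _ _ h4
    · refine Ideal.mul_mem_right _ _ (Ideal.pow_le_pow_right ?_ (hf q.1 (by omega)))
      omega
  have hle : ∀ N, mP m P ^ N ≤ S N := by
    intro N
    induction N with
    | zero =>
      intro f _
      rw [hS]
      intro d hd
      exact absurd hd (Nat.not_lt_zero _)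
    | succ N ih =>
      rw [pow_succ]
      exact Ideal.mul_le.2 fun f hf g hg => hmul N f g (ih hf) hg
  exact (hS N f).1 (hle N hf) d hd

private theorem vI_le {m : ℕ} (P : Ideal W) : H84.CA.vI (Fin m) W ≤ mP m P := by
  rw [H84.CA.vI_eq_ker]
  intro f hf
  rw [mem_mP, RingHom.mem_ker.1 hf]
  exact Ideal.zero_mem _

private theorem map_C_le {m : ℕ} (P : Ideal W) : P.map (C (σ := Fin m) (R := W)) ≤ mP m P := by
  rw [Ideal.map_le_iff_le_comap]
  intro c hc
  rw [Ideal.mem_comap, mem_mP, constantCoeff_C]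
  exact hc

theorem mem_pow {m : ℕ} {P : Ideal W} {N : ℕ} {f : MvPowerSeries (Fin m) W} :
    f ∈ mP m P ^ N ↔ ∀ d : Fin m →₀ ℕ, d.degree < N → coeff d f ∈ P ^ (N - d.degree) := by
  refine ⟨fun hf d hd => pow_sub hf d hd, fun hf => ?_⟩
  have hfin : {d : Fin m →₀ ℕ | d.degree < N}.Finite := Finsupp.finite_of_degree_lt N
  have h1 : f - ∑ d ∈ hfin.toFinset, monomial d (coeff d f) ∈ H84.CA.vI (Fin m) W ^ N := by
    classical
    rw [H84.CA.mem_vI_pow]
    intro x hx
    rw [map_sub, map_sum, sub_eq_zero, Finset.sum_eq_single x]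
    · rw [coeff_monomial_same]
    · intro d _ hd
      rw [coeff_monomial, if_neg (Ne.symm hd)]
    · intro h
      exact absurd ((Set.Finite.mem_toFinset hfin).2 hx) h
  have h2 : ∑ d ∈ hfin.toFinset, monomial d (coeff d f) ∈ mP m P ^ N := by
    refine Ideal.sum_mem _ fun d hd => ?_
    have hd' : d.degree < N := (Set.Finite.mem_toFinset hfin).1 hd
    have h3 : monomial d (coeff d f) = C (coeff d f) * monomial d (1 : W) := by
      rw [← monomial_zero_eq_C_apply, monomial_mul_monomial, zero_add, mul_one]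
    have h4 : C (σ := Fin m) (R := W) (coeff d f) ∈ mP m P ^ (N - d.degree) := by
      have h5 := Ideal.mem_map_of_mem (C (σ := Fin m) (R := W)) (hf d hd')
      rw [Ideal.map_pow] at h5
      exact Ideal.pow_right_mono (map_C_le P) _ h5
    have h5 : monomial d (1 : W) ∈ mP m P ^ d.degree := by
      refine Ideal.pow_right_mono (vI_le P) _ ?_
      rw [H84.CA.mem_vI_pow]
      intro x hx
      classical
      rw [coeff_monomial, if_neg]
      rintro rfl
      exact lt_irrefl _ hx
    have h6 := Ideal.mul_mem_mul h4 h5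
    rw [← pow_add, Nat.sub_add_cancel hd'.le] at h6
    rw [h3]
    exact h6
  have h3 := Ideal.add_mem _ (Ideal.pow_right_mono (vI_le P) N h1) h2
  rwa [sub_add_cancel] at h3

theorem ac_mP {m : ℕ} (P : Ideal W) [IsAdicComplete P W] :
    IsAdicComplete (mP m P) (MvPowerSeries (Fin m) W) where
  haus' := by
    intro f hf
    ext x
    rw [map_zero]
    refine IsHausdorff.haus' (I := P) _ fun n => ?_
    rw [SModEq.zero, smul_eq_mul, Ideal.mul_top]
    have h := hf (n + 1 + x.degree)
    rw [SModEq.zero, smul_eq_mul, Ideal.mul_top] at h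
    exact Ideal.pow_le_pow_right (by omega) (mem_pow.1 h x (by omega))
  prec' := by
    intro f hf
    have hf' : ∀ {k l : ℕ}, k ≤ l → ∀ x : Fin m →₀ ℕ,
        coeff x (f (k + x.degree)) - coeff x (f (l + x.degree)) ∈ P ^ k := by
      intro k l hkl x
      rcases Nat.eq_zero_or_pos k with rfl | hk
      · rw [pow_zero, Ideal.one_eq_top]
        exact Submodule.mem_top
      · have h := hf (show k + x.degree ≤ l + x.degree by omega)
        rw [SModEq.sub_mem, smul_eq_mul, Ideal.mul_top] at h
        have h1 := mem_pow.1 h x (by omega)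
        rw [map_sub, Nat.add_sub_cancel] at h1
        exact h1
    have hL : ∀ x : Fin m →₀ ℕ, ∃ L : W, ∀ k, coeff x (f (k + x.degree)) - L ∈ P ^ k := by
      intro x
      obtain ⟨L, hL⟩ := IsPrecomplete.prec' (I := P) (fun k => coeff x (f (k + x.degree)))
        (fun {k l} hkl => by
          rw [SModEq.sub_mem, smul_eq_mul, Ideal.mul_top]
          exact hf' hkl x)
      refine ⟨L, fun k => ?_⟩
      have h := hL k
      rwa [SModEq.sub_mem, smul_eq_mul, Ideal.mul_top] at h
    choose L hL using hL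
    obtain ⟨l, hl⟩ : ∃ l : MvPowerSeries (Fin m) W, ∀ x, coeff x l = L x :=
      ⟨fun x => L x, fun x => rfl⟩
    refine ⟨l, fun n => ?_⟩
    rw [SModEq.sub_mem, smul_eq_mul, Ideal.mul_top, mem_pow]
    intro x hx
    have h := hL x (n - x.degree)
    rw [Nat.sub_add_cancel hx.le] at h
    rw [map_sub, hl]
    exact h

/-- `(P, X_1, .., X_m)` is generated by `P` and the variables -/
theorem mP_eq {m : ℕ} (P : Ideal W) :
    mP m P = P.map (C (σ := Fin m) (R := W)) ⊔ Ideal.span (Set.range fun i : Fin m => X i) := by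
  refine le_antisymm (fun f hf => ?_) (sup_le (map_C_le P) (vI_le P))
  have h1 : f - C (constantCoeff f) ∈ H84.CA.vI (Fin m) W := by
    rw [H84.CA.vI_eq_ker, RingHom.mem_ker, map_sub, constantCoeff_C, sub_self]
  have h2 : C (σ := Fin m) (R := W) (constantCoeff f) ∈ P.map (C (σ := Fin m) (R := W)) :=
    Ideal.mem_map_of_mem _ hf
  have h3 : f = C (constantCoeff f) + (f - C (constantCoeff f)) := by rw [add_sub_cancel]
  rw [h3]
  exact Submodule.add_mem_sup h2 h1

end Pool.Agent.H86.LT
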