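import Mathlib

/-!
# Chapter LT: the kernel of `W⟦X⟧ → k⟦X⟧` (helper86)
-/

open MvPowerSeries

namespace Pool.Agent.H86.LT

theorem ker_mv {σ W S : Type*} [CommRing W] [CommRing S] (π : W →+* S) (h : (RingHom.ker π).FG) :
    RingHom.ker (MvPowerSeries.map (σ := σ) π) = (RingHom.ker π).map (C (σ := σ) (R := W)) := by
  refine le_antisymm ?_ ?_
  · intro x hx
    obtain ⟨s, hs⟩ := h
    have h1 : ∀ d : σ →₀ ℕ, ∃ f : W → W, ∑ a ∈ s, f a * a = coeff d x := by
      intro d
      have h2 : coeff d x ∈ Ideal.span (s : Set W) := by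
        rw [show Ideal.span (s : Set W) = RingHom.ker π from hs, RingHom.mem_ker, ← coeff_map,
          RingHom.mem_ker.1 hx, map_zero]
      obtain ⟨f, -, hf⟩ := Submodule.mem_span_finset.1 h2
      exact ⟨f, hf⟩
    choose f hf using h1
    obtain ⟨y, hy⟩ : ∃ y : W → MvPowerSeries σ W, ∀ a d, coeff d (y a) = f d a :=
      ⟨fun a d => f d a, fun _ _ => rfl⟩
    have h2 : x = ∑ a ∈ s, y a * C a := by
      ext d
      rw [map_sum, ← hf]
      refine Finset.sum_congr rfl fun a _ => ?_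
      rw [coeff_mul_C, hy]
    rw [h2]
    refine Ideal.sum_mem _ fun a ha => Ideal.mul_mem_left _ _ (Ideal.mem_map_of_mem _ ?_)
    rw [← show Ideal.span (s : Set W) = RingHom.ker π from hs]
    exact Ideal.subset_span ha
  · rw [Ideal.map_le_iff_le_comap]
    intro a ha
    rw [Ideal.mem_comap, RingHom.mem_ker, map_C, RingHom.mem_ker.1 ha, map_zero]

end Pool.Agent.H86.LT
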