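import Pool.Agent.H86.NF.Nfg
import Pool.Agent.H86.NF.Gen

/-!
# Chapter LT: the normal form machinery with `p ∈ I` (helper86)

The theorems of `H86/NF/Nfg.lean`, `Un2.lean` with `(p : B) ∈ I` instead of `CharP B p`.
-/

open PowerSeries

namespace Pool.Agent.H86.LT

open Pool.Agent.H86.NF hiding gnf_step gnf_unique_aux gnf_unique gnf_exists_step gnf_exists pert

variable {B : Type*} [CommRing B]

/-- `g ∘ u ≡ g ∘ w mod I ^ (j + 1)` if `u ≡ w mod I ^ j`, `p ∈ I` and the coefficients of `g` of index prime to `p`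
are in `I` -/
theorem pertG {p : ℕ} [Fact p.Prime] {I : Ideal B} (hpI : (p : B) ∈ I) {j : ℕ} (hj : 1 ≤ j)
    {g u w : B⟦X⟧} (hp : ∀ i, ¬ p ∣ i → coeff i g ∈ I) (hu0 : constantCoeff u = 0)
    (hw0 : constantCoeff w = 0) (hw : Sm (I ^ j) u w) : Sm (I ^ (j + 1)) (cm g u) (cm g w) := by
  have hpp : p.Prime := Fact.out
  have hp0 : p ≠ 0 := hpp.ne_zero
  set h : B⟦X⟧ := PowerSeries.mk fun i => coeff (p * i) g with hh
  set gp : B⟦X⟧ := cm h (X ^ p : B⟦X⟧) with hgp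
  have hXp : constantCoeff (X ^ p : B⟦X⟧) = 0 := by
    rw [map_pow, constantCoeff_X, zero_pow hp0]
  have hr : ∀ i, coeff i (g - gp) ∈ I := by
    intro i
    rw [map_sub, hgp, coeff_comp_X_pow hp0]
    split_ifs with hd
    · obtain ⟨c, rfl⟩ := hd
      rw [Nat.mul_div_cancel_left _ hpp.pos, hh, coeff_mk, sub_self]
      exact zero_mem _
    · rw [sub_zero]
      exact hp i hd
  have h1 : Sm (I ^ (j + 1)) (cm (g - gp) u) (cm (g - gp) w) := by
    have := comp_mul hr hu0 hw0 hw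
    rw [← pow_succ'] at this
    exact this
  have h2 : Sm (I ^ (j + 1)) (u ^ p) (w ^ p) := by
    intro i
    obtain ⟨r, hr'⟩ := exists_add_pow_prime_eq hpp w (u - w)
    have e1 : u ^ p - w ^ p = (u - w) ^ p + (p : B⟦X⟧) * ((u - w) * (w * r)) := by
      rw [add_sub_cancel] at hr'
      rw [hr']
      ring
    have hcoef : ∀ {K : Ideal B} {a : B⟦X⟧} (b : B⟦X⟧), (∀ i, coeff i a ∈ K) →
        ∀ i, coeff i (a * b) ∈ K := by
      intro K a b ha i
      rw [coeff_mul]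
      exact Ideal.sum_mem _ fun x _ => Ideal.mul_mem_right _ _ (ha _)
    have hd : ∀ i, coeff i (u - w) ∈ I ^ j := fun i => by rw [map_sub]; exact hw i
    rw [← map_sub, e1, map_add]
    refine add_mem ?_ ?_
    · have h3 : ∀ n, ∀ i, coeff i ((u - w) ^ n) ∈ (I ^ j) ^ n := by
        intro n
        induction n with
        | zero =>
          intro i
          rw [pow_zero, pow_zero, Ideal.one_eq_top]
          trivial
        | succ n ih =>
          intro i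
          rw [pow_succ (u - w) n, coeff_mul, pow_succ (I ^ j) n]
          exact Ideal.sum_mem _ fun x _ => Ideal.mul_mem_mul (ih _) (hd _)
      have h4 : (I ^ j) ^ p ≤ I ^ (j + 1) := by
        rw [← pow_mul]
        apply Ideal.pow_le_pow_right
        have := hpp.two_le
        nlinarith
      exact h4 (h3 p i)
    · rw [← map_natCast (C (R := B)), coeff_C_mul, pow_succ']
      exact Ideal.mul_mem_mul hpI (hcoef _ hd i)
  have h3 : Sm (I ^ (j + 1)) (cm gp u) (cm gp w) := by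
    rw [hgp, comp_assoc _ hXp hu0, comp_assoc _ hXp hw0, X_pow_comp hu0, X_pow_comp hw0]
    refine (Sm.refl _ h).comp ?_ ?_ h2
    · rw [map_pow, hu0, zero_pow hp0]
    · rw [map_pow, hw0, zero_pow hp0]
  have h5 := h1.add h3
  rw [← comp_add _ _ hu0, ← comp_add _ _ hw0, sub_add_cancel] at h5
  exact h5

theorem pertX {p : ℕ} [Fact p.Prime] {I : Ideal B} (hpI : (p : B) ∈ I) {j : ℕ} (hj : 1 ≤ j)
    {g w : B⟦X⟧} (hp : ∀ i, ¬ p ∣ i → coeff i g ∈ I) (hw0 : constantCoeff w = 0)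
    (hw : Sm (I ^ j) w X) : Sm (I ^ (j + 1)) (cm g w) g := by
  have h := pertG hpI hj hp hw0 constantCoeff_X hw
  rwa [comp_X] at h

/-- **UN** for arbitrary homomorphisms -/
theorem un2 {p : ℕ} [Fact p.Prime] {I : Ideal B} [IsHausdorff I B] (hpI : (p : B) ∈ I) {d : ℕ}
    (hd1 : 1 ≤ d) {g g₁ u₁ u₂ : B⟦X⟧} (hg0 : constantCoeff g = 0)
    (hp : ∀ i, ¬ p ∣ i → coeff i g₁ ∈ I) (hd : ∀ i < d, coeff i g ∈ I)
    (hu : IsUnit (coeff d g)) (hu₁ : constantCoeff u₁ = 0) (hu₂ : constantCoeff u₂ = 0)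
    (h12 : Sm I u₁ u₂) (e₁ : cm u₁ g = cm g₁ u₁) (e₂ : cm u₂ g = cm g₁ u₂) : u₁ = u₂ := by
  have key : ∀ j, Sm (I ^ (j + 1)) u₁ u₂ := by
    intro j
    induction j with
    | zero =>
      rw [zero_add, pow_one]
      exact h12
    | succ j ih =>
      have k1 := pertG hpI (Nat.le_add_left 1 j) hp hu₁ hu₂ ih
      rw [← e₁, ← e₂] at k1
      have k2 : ∀ i, coeff i (cm (u₁ - u₂) g) ∈ I ^ (j + 1 + 1) := by
        intro i
        have h1 : cm (u₁ - u₂) g = cm u₁ g - cm u₂ g := subst_sub (hsub hg0) u₁ u₂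
        rw [h1, map_sub]
        exact k1 i
      have k3 := left_cancel (K := I ^ (j + 1)) (I := I) (J := I ^ (j + 1 + 1))
        (by rw [← pow_succ]) hd1 hg0 hd hu (fun i => by rw [map_sub]; exact ih i) k2
      intro i
      have := k3 i
      rwa [map_sub] at this
  refine sm_of_all (I := I) fun j => ?_
  exact (key j).mono (Ideal.pow_le_pow_right (Nat.le_succ j))

theorem gnf_step {p : ℕ} [Fact p.Prime] {I : Ideal B} (hpI : (p : B) ∈ I) {j : ℕ} (hj : 1 ≤ j)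
    {g₁ g₂ w : B⟦X⟧} (hc₁ : constantCoeff g₁ = 0) (hp₂ : ∀ i, ¬ p ∣ i → coeff i g₂ ∈ I)
    (hw0 : constantCoeff w = 0) (hw : Sm (I ^ j) w X) (e : cm w g₁ = cm g₂ w) :
    Sm (I ^ (j + 1)) (g₁ + cm (w - X) g₁) g₂ := by
  have k1 := pertX hpI hj hp₂ hw0 hw
  rwa [← e, left_eq w hc₁] at k1

/-- uniqueness, single conjugating series -/
theorem gnf_unique_aux {p : ℕ} [Fact p.Prime] {I : Ideal B} [IsHausdorff I B] (hpI : (p : B) ∈ I) {d : ℕ}
    (hd1 : 1 ≤ d) {g₁ g₂ w : B⟦X⟧} (hc₁ : constantCoeff g₁ = 0)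
    (hp₂ : ∀ i, ¬ p ∣ i → coeff i g₂ ∈ I) (hd : ∀ i < d, coeff i g₁ ∈ I)
    (hu : IsUnit (coeff d g₁)) (hn : NrmR d g₁ g₂)
    (hw0 : constantCoeff w = 0) (hw : Sm I w X) (e : cm w g₁ = cm g₂ w) : w = X := by
  have key : ∀ j, Sm (I ^ (j + 1)) w X := by
    intro j
    induction j with
    | zero =>
      rw [zero_add, pow_one]
      exact hw
    | succ j ih =>
      have k1 := gnf_step hpI (Nat.le_add_left 1 j) hc₁ hp₂ hw0 ih e
      have k2 : ∀ i, 1 ≤ i → coeff (d * i) (cm (w - X) g₁) ∈ I ^ (j + 1 + 1) := by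
        intro i hi
        have h := k1 (d * i)
        rwa [map_add, hn i hi, add_sub_cancel_left] at h
      have k3 := left_cancel' (K := I ^ (j + 1)) (I := I) (J := I ^ (j + 1 + 1))
        (by rw [← pow_succ]) hd1 hc₁ hd hu (by rw [map_sub, hw0, constantCoeff_X, sub_zero])
        (fun i => by rw [map_sub]; exact ih i) k2
      intro i
      have := k3 i
      rwa [map_sub] at this
  refine sm_of_all (I := I) fun j => ?_
  exact (key j).mono (Ideal.pow_le_pow_right (Nat.le_succ j))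

/-- **Uniqueness of the normal form** (general reference). -/
theorem gnf_unique {p : ℕ} [Fact p.Prime] {I : Ideal B} [IsAdicComplete I B] (hpI : (p : B) ∈ I) {d : ℕ}
    (hd1 : 1 ≤ d) {g g₁ g₂ u₁ u₂ : B⟦X⟧} (hg0 : constantCoeff g = 0)
    (hc₁ : constantCoeff g₁ = 0) (hp₂ : ∀ i, ¬ p ∣ i → coeff i g₂ ∈ I)
    (hd : ∀ i < d, coeff i g₁ ∈ I) (hu : IsUnit (coeff d g₁)) (hn : NrmR d g₁ g₂)
    (hu₁ : constantCoeff u₁ = 0) (hu₂ : constantCoeff u₂ = 0) (hunit : IsUnit (coeff 1 u₁))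
    (h12 : Sm I u₁ u₂) (e₁ : cm u₁ g = cm g₁ u₁) (e₂ : cm u₂ g = cm g₂ u₂) :
    u₁ = u₂ ∧ g₁ = g₂ := by
  obtain ⟨v, hv0, huv, hvu⟩ := exists_inv hu₁ hunit
  have hw0 : constantCoeff (cm u₂ v) = 0 := cz_comp hu₂ hv0
  have hw : Sm I (cm u₂ v) X := by
    have h := h12.symm.comp hv0 hv0 (Sm.refl I v)
    rwa [huv] at h
  have e := conj_aux hg0 hc₁ hu₁ hu₂ hv0 huv hvu e₁ e₂
  have hX := gnf_unique_aux (I := I) hpI hd1 hc₁ hp₂ hd hu hn hw0 hw e
  have hu' : u₂ = u₁ := by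
    calc u₂ = cm u₂ (cm v u₁) := by rw [hvu, comp_X]
      _ = cm (cm u₂ v) u₁ := by rw [comp_assoc u₂ hv0 hu₁]
      _ = u₁ := by rw [hX, X_comp hu₁]
  refine ⟨hu'.symm, ?_⟩
  rw [hX, X_comp hc₁, comp_X] at e
  exact e

/-- one step of the construction -/
theorem gnf_exists_step {p : ℕ} [Fact p.Prime] {I : Ideal B} [IsAdicComplete I B] (hpI : (p : B) ∈ I)
    {d : ℕ} (hd1 : 1 ≤ d) {j : ℕ} {g₀ g : B⟦X⟧} (hc : constantCoeff g = 0) (hg : Sm I g g₀)
    (hp : ∀ i, ¬ p ∣ i → coeff i g₀ ∈ I) (hd : ∀ i < d, coeff i g₀ ∈ I)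
    (hu : IsUnit (coeff d g₀)) (hn : ∀ i, 1 ≤ i → coeff (d * i) g - coeff (d * i) g₀ ∈ I ^ (j + 1)) :
    ∃ w g' : B⟦X⟧, constantCoeff w = 0 ∧ Sm (I ^ (j + 1)) w X ∧ constantCoeff g' = 0 ∧
      Sm (I ^ (j + 1)) g' g ∧ cm w g = cm g' w ∧
      (∀ i, 1 ≤ i → coeff (d * i) g' - coeff (d * i) g₀ ∈ I ^ (j + 1 + 1)) := by
  have hjI : I ^ (j + 1) ≤ I := Ideal.pow_le_self (Nat.succ_ne_zero j)
  have hdg : ∀ i < d, coeff i g ∈ I := by
    intro i hi
    have h := add_mem (hg i) (hd i hi)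
    rwa [sub_add_cancel] at h
  have hug : IsUnit (coeff d g) := isUnit_of_sub_mem hu (hg d)
  obtain ⟨e, he0, heK, heJ⟩ := exists_tri (K := I ^ (j + 1)) (I := I) (J := I ^ (j + 1 + 1))
    (by rw [← pow_succ]) hd1 hc hdg hug
    (fun i => if i = 0 then 0 else coeff (d * i) g₀ - coeff (d * i) g) (by
      intro i
      split_ifs with h0
      · exact zero_mem _
      · have h := hn i (Nat.pos_of_ne_zero h0)
        rw [← neg_sub]
        exact neg_mem h)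
  set w : B⟦X⟧ := X + e with hw
  have hw0 : constantCoeff w = 0 := by
    rw [hw, map_add, constantCoeff_X, zero_add, he0]
  have hwX : Sm (I ^ (j + 1)) w X := by
    intro i
    rw [hw, map_add, add_sub_cancel_left]
    exact heK i
  obtain ⟨v, hv0, hwv, hvw⟩ := exists_inv hw0 (isUnit_one_of_sm (hwX.mono hjI))
  have hvX : Sm (I ^ (j + 1)) v X := by
    have h := (hwX.symm.comp hv0 hv0 (Sm.refl _ v))
    rwa [hwv, X_comp hv0] at h
  set g' : B⟦X⟧ := cm w (cm g v) with hg'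
  have hc' : constantCoeff g' = 0 := cz_comp hw0 (cz_comp hc hv0)
  have hgg : Sm (I ^ (j + 1)) g' g := by
    have h1 : Sm (I ^ (j + 1)) (cm g v) g := by
      have h := (Sm.refl (I ^ (j + 1)) g).comp hv0 constantCoeff_X hvX
      rwa [comp_X] at h
    have h2 := hwX.comp (cz_comp hc hv0) hc h1
    rwa [X_comp hc] at h2
  have hcomm : cm w g = cm g' w := by
    rw [hg', comp_assoc w (cz_comp hc hv0) hw0, comp_assoc g hv0 hw0, hvw, comp_X]
  refine ⟨w, g', hw0, hwX, hc', hgg, hcomm, fun i hi => ?_⟩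
  have hp' : ∀ i, ¬ p ∣ i → coeff i g' ∈ I := by
    intro i hi
    have h := add_mem ((hgg.mono hjI).trans hg i) (hp i hi)
    rwa [sub_add_cancel] at h
  have h := gnf_step hpI (Nat.le_add_left 1 j) hc hp' hw0 hwX hcomm (d * i)
  have h2 := heJ i hi
  rw [hw, add_sub_cancel_left, map_add] at h
  simp only [if_neg (Nat.pos_iff_ne_zero.mp hi)] at h2
  have h3 := sub_mem h2 h
  convert h3 using 1
  ring

/-- **Existence of the normal form** (general reference). -/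
theorem gnf_exists {p : ℕ} [Fact p.Prime] (I : Ideal B) [IsAdicComplete I B]
    (hpI : (p : B) ∈ I)    {d : ℕ} (hd1 : 1 ≤ d) {g₀ g : B⟦X⟧} (hc : constantCoeff g = 0) (hg : Sm I g g₀)
    (hp : ∀ i, ¬ p ∣ i → coeff i g₀ ∈ I) (hd : ∀ i < d, coeff i g₀ ∈ I)
    (hu : IsUnit (coeff d g₀)) :
    ∃ u g' : B⟦X⟧, constantCoeff u = 0 ∧ Sm I u X ∧ constantCoeff g' = 0 ∧ Sm I g' g₀ ∧
      NrmR d g₀ g' ∧ cm u g = cm g' u := by
  let St (j : ℕ) := {x : B⟦X⟧ × B⟦X⟧ // constantCoeff x.1 = 0 ∧ Sm I x.1 X ∧ constantCoeff x.2 = 0 ∧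
    Sm I x.2 g₀ ∧ (∀ i, 1 ≤ i → coeff (d * i) x.2 - coeff (d * i) g₀ ∈ I ^ (j + 1)) ∧
    cm x.1 g = cm x.2 x.1}
  have step : ∀ j (x : St j), ∃ y : St (j + 1), Sm (I ^ (j + 1)) x.1.1 y.1.1 ∧
      Sm (I ^ (j + 1)) x.1.2 y.1.2 := by
    rintro j ⟨⟨u, g₁⟩, hu0, huX, hg0, hgX, hn, hcm⟩
    obtain ⟨w, g', hw0, hwX, hg'0, hgg, hcomm, hn'⟩ := gnf_exists_step hpI hd1 hg0 hgX hp hd hu hn
    have hjI : I ^ (j + 1) ≤ I := Ideal.pow_le_self (Nat.succ_ne_zero j)
    have h1 : Sm (I ^ (j + 1)) (cm w u) u := by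
      have h := hwX.comp hu0 hu0 (Sm.refl _ u)
      rwa [X_comp hu0] at h
    refine ⟨⟨(cm w u, g'), cz_comp hw0 hu0, (h1.mono hjI).trans huX, hg'0,
      (hgg.mono hjI).trans hgX, hn', ?_⟩, h1.symm, hgg.symm⟩
    show cm (cm w u) g = cm g' (cm w u)
    rw [comp_assoc w hu0 hc, hcm, ← comp_assoc w hg0 hu0, hcomm, comp_assoc g' hw0 hu0]
  choose nx hnx using step
  let x₀ : St 0 := ⟨(X, g), constantCoeff_X, Sm.refl _ _, hc, hg, by
    intro i hi
    rw [zero_add, pow_one]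
    exact hg (d * i), by rw [X_comp hc, comp_X]⟩
  let sq : ∀ j, St j := fun j => Nat.rec x₀ (fun j x => nx j x) j
  have hs1 : ∀ j, Sm (I ^ (j + 1)) (sq j).1.1 (sq (j + 1)).1.1 := fun j => (hnx j (sq j)).1
  have hs2 : ∀ j, Sm (I ^ (j + 1)) (sq j).1.2 (sq (j + 1)).1.2 := fun j => (hnx j (sq j)).2
  have hle : ∀ j, I ^ (j + 1) ≤ I ^ j := fun j => Ideal.pow_le_pow_right (Nat.le_succ j)
  obtain ⟨u, hu'⟩ := exists_lim (fun j => (sq j).1.1) (fun j => (hs1 j).mono (hle j))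
  obtain ⟨g', hg'⟩ := exists_lim (fun j => (sq j).1.2) (fun j => (hs2 j).mono (hle j))
  have hz : ∀ {b : B}, (∀ j, b ∈ I ^ j) → b = 0 := by
    intro b hb
    refine IsHausdorff.haus (‹IsAdicComplete I B›.toIsHausdorff) _ fun j => ?_
    rw [SModEq.zero, smul_eq_mul, Ideal.mul_top]
    exact hb j
  have hu0 : constantCoeff u = 0 := by
    apply hz
    intro j
    have h := hu' j 0
    rw [coeff_zero_eq_constantCoeff_apply, coeff_zero_eq_constantCoeff_apply, (sq j).2.1,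
      zero_sub] at h
    exact neg_mem_iff.mp h
  have hg'0 : constantCoeff g' = 0 := by
    apply hz
    intro j
    have h := hg' j 0
    rw [coeff_zero_eq_constantCoeff_apply, coeff_zero_eq_constantCoeff_apply, (sq j).2.2.2.1,
      zero_sub] at h
    exact neg_mem_iff.mp h
  refine ⟨u, g', hu0, ?_, hg'0, ?_, ?_, ?_⟩
  · have h := hu' 1
    rw [pow_one] at h
    exact h.symm.trans (sq 1).2.2.1
  · have h := hg' 1
    rw [pow_one] at h
    exact h.symm.trans (sq 1).2.2.2.2.1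
  · intro i hi
    rw [← sub_eq_zero]
    apply hz
    intro j
    have h1 := hg' j (d * i)
    have h2 := hle j ((sq j).2.2.2.2.2.1 i hi)
    have h3 := sub_mem h2 h1
    rwa [sub_sub_sub_cancel_left] at h3
  · refine sm_of_all (I := I) fun j => ?_
    have h1 := (hu' j).symm.comp hc hc (Sm.refl _ g)
    have h2 := (hg' j).comp (sq j).2.1 hu0 (hu' j)
    rw [← (sq j).2.2.2.2.2.2] at h2
    exact h1.trans h2

end Pool.Agent.H86.LT
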