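import Pool.Agent.H40.CH3.Defs
import Pool.Agent.H86.FG.Fg
import Pool.Agent.H86.LT.Nf
import Pool.Agent.H86.LT.Ac
import Pool.Agent.H86.LT.Ker

/-!
# Chapter LT: uniqueness of liftings over `W⟦X_1, .., X_m⟧` (helper86)

`P = ker π`, `A = W⟦X⟧`, `I = mP m P = ker (resd π m)`.  `hom_unique_mix`: homomorphisms are determined by their reductions
modulo `I`; `lift_unique_mix`: so are the elements of `Lift W F`, when `F` modulo `P` is a Lubin-Tate family.
-/

open PowerSeries

namespace Pool.Agent.H86.LT

open Pool.Agent.H13.CA Pool.Agent.H40.CH3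
open Pool.Agent.H86.NF (Sm HT Ij cf cm NrmR cz_map cz_comp comp_assoc map_comp X_comp comp_X exists_inv
  isUnit_one_of_sm isUnit_of_sub_mem Ij_last)

theorem gen_abs' {k A : Type*} [CommRing k] [CommRing A] [Algebra k A] {I : Ideal A}
    [IsHausdorff I A] {S : Set A} (hm : I = Ideal.span S)
    (hk : ∀ a : A, ∃ x : k, a - algebraMap k A x ∈ I) (φ : A →ₐ[k] A)
    (hc : ∀ s ∈ S, φ s = s) : φ = AlgHom.id k A := by
  have key : ∀ N : ℕ, ∀ a : A, φ a - a ∈ I ^ N := by
    intro N
    induction N with
    | zero =>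
      intro a
      rw [pow_zero, Ideal.one_eq_top]
      trivial
    | succ N ih =>
      intro a
      obtain ⟨x, hx⟩ := hk a
      have h1 : φ a - a = φ (a - algebraMap k A x) - (a - algebraMap k A x) := by
        rw [map_sub, AlgHom.commutes]
        ring
      rw [h1]
      have h2 : ∀ b ∈ Ideal.span S, φ b - b ∈ I ^ (N + 1) := by
        intro b hb
        induction hb using Submodule.span_induction with
        | mem b hb =>
          rw [hc b hb, sub_self]
          exact zero_mem _
        | zero =>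
          rw [map_zero, sub_self]
          exact zero_mem _
        | add b b' _ _ h h' =>
          rw [map_add, add_sub_add_comm]
          exact add_mem h h'
        | smul t b hb h =>
          have h3 : φ (t • b) - t • b = φ t * (φ b - b) + (φ t - t) * b := by
            rw [smul_eq_mul, map_mul]
            ring
          rw [h3]
          refine add_mem (Ideal.mul_mem_left _ _ h) ?_
          rw [pow_succ]
          refine Ideal.mul_mem_mul (ih t) ?_
          rw [hm]
          exact hb
      exact h2 _ (hm ▸ hx)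
  refine AlgHom.ext fun a => ?_
  rw [AlgHom.id_apply, ← sub_eq_zero]
  refine IsHausdorff.haus ‹IsHausdorff I A› _ fun N => ?_
  rw [SModEq.zero, smul_eq_mul, Ideal.mul_top]
  exact key N a

/-- an ideal containing the kernel of a surjection, from generators of the image -/
theorem comap_span {A A' : Type*} [CommRing A] [CommRing A'] (ρ : A →+* A') {K : Ideal A}
    (hK : RingHom.ker ρ = K) {ι : Type*} (w : ι → A) :
    (Ideal.span (Set.range fun i => ρ (w i))).comap ρ = K ⊔ Ideal.span (Set.range w) ∨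
      ¬ Function.Surjective ρ := by
  by_cases hs : Function.Surjective ρ
  · left
    have h1 : Ideal.span (Set.range fun i => ρ (w i)) = (Ideal.span (Set.range w)).map ρ := by
      rw [Ideal.map_span, ← Set.range_comp]
      rfl
    rw [h1, Ideal.comap_map_of_surjective ρ hs, ← hK, sup_comm]
    rfl
  · exact Or.inr hs

/-- **GEN**: pairs with trivial reduction are trivial -/
theorem ggen {W A A' : Type*} [CommRing W] [CommRing A] [CommRing A'] [Algebra W A] {p : ℕ}
    [Fact p.Prime] {I : Ideal A} [IsAdicComplete I A] (hpI : (p : A) ∈ I) (ρ : A →+* A')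
    (hρ : Function.Surjective ρ) {P : Ideal W} (hker : RingHom.ker ρ = P.map (algebraMap W A))
    {r : ℕ} {v : Fin r → A'} (hI : I = (Ideal.span (Set.range v)).comap ρ)
    (hk : ∀ a : A, ∃ x : W, a - algebraMap W A x ∈ I)
    {g : A⟦X⟧} {g₀ : W⟦X⟧} (hg0 : constantCoeff g = 0)
    (hg : Sm I g (PowerSeries.map (algebraMap W A) g₀)) (hT : HT p v (PowerSeries.map ρ g))
    (hp : ∀ i, ¬ p ∣ i → algebraMap W A (coeff i g₀) ∈ I)
    (hd : ∀ i < p ^ (r + 1), algebraMap W A (coeff i g₀) ∈ I)
    (hu : IsUnit (algebraMap W A (coeff (p ^ (r + 1)) g₀)))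
    (φ : A →ₐ[W] A) (hφ : ∀ a ∈ I, φ a ∈ I) {f : A⟦X⟧} (hf0 : constantCoeff f = 0)
    (hf : Sm I f X) (hc : cm f g = cm (PowerSeries.map (φ : A →+* A) g) f) :
    φ = AlgHom.id W A ∧ f = X := by
  have hpp : p.Prime := Fact.out
  obtain ⟨b, hb⟩ : ∃ b : A⟦X⟧, b = PowerSeries.map (algebraMap W A) g₀ := ⟨_, rfl⟩
  have hbc : ∀ i, coeff i b = algebraMap W A (coeff i g₀) := fun i => by rw [hb, coeff_map]
  rw [← hb] at hg
  have hpb : ∀ i, ¬ p ∣ i → coeff i b ∈ I := fun i hi => by rw [hbc]; exact hp i hi
  have hdb : ∀ i < p ^ (r + 1), coeff i b ∈ I := fun i hi => by rw [hbc]; exact hd i hi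
  have hub : IsUnit (coeff (p ^ (r + 1)) b) := by rw [hbc]; exact hu
  have hφb : ∀ i, φ (coeff i b) = coeff i b := by
    intro i
    rw [hbc]
    exact φ.commutes _
  have h1 : 1 ≤ p ^ (r + 1) := Nat.one_le_pow _ _ hpp.pos
  obtain ⟨u, g', hu0, huX, hg'0, hg'b, hn, huc⟩ := LT.gnf_exists I hpI h1 hg0 hg hpb hdb hub
  have hsum : ∀ {x y : A}, x - y ∈ I → y ∈ I → x ∈ I := fun {x y} h h' => by
    have h2 := add_mem h h'
    rwa [sub_add_cancel] at h2
  have hmu0 := cz_map (φ : A →+* A) hu0
  have hmg'0 := cz_map (φ : A →+* A) hg'0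
  have h3 : cm (PowerSeries.map (φ : A →+* A) u) (PowerSeries.map (φ : A →+* A) g) =
      cm (PowerSeries.map (φ : A →+* A) g') (PowerSeries.map (φ : A →+* A) u) := by
    rw [← map_comp _ hg0, ← map_comp _ hu0, huc]
  have h4 : cm (cm (PowerSeries.map (φ : A →+* A) u) f) g =
      cm (PowerSeries.map (φ : A →+* A) g') (cm (PowerSeries.map (φ : A →+* A) u) f) := by
    rw [comp_assoc _ hf0 hg0, hc, ← comp_assoc _ (cz_map _ hg0) hf0, h3, comp_assoc _ hmu0 hf0]
  have h2 : Sm I (PowerSeries.map (φ : A →+* A) u) X := by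
    have h := huX.map (φ : A →+* A) hφ
    rwa [map_X] at h
  have h5 : Sm I (cm (PowerSeries.map (φ : A →+* A) u) f) X := by
    have h := h2.comp hf0 constantCoeff_X hf
    rwa [comp_X] at h
  have hφg' : Sm I (PowerSeries.map (φ : A →+* A) g') b := by
    intro i
    have h := hφ _ (hg'b i)
    rw [map_sub, hφb i] at h
    rw [coeff_map]
    exact h
  have h6 := LT.gnf_unique hpI h1 hg0 hg'0 (g₂ := PowerSeries.map (φ : A →+* A) g')
    (fun i hi => hsum (hφg' i) (hpb i hi)) (fun i hi => hsum (hg'b i) (hdb i hi))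
    (isUnit_of_sub_mem hub (hg'b _))
    (fun i hi => by
      rw [coeff_map, hn i hi]
      exact hφb _)
    hu0 (cz_comp hmu0 hf0) (isUnit_one_of_sm huX) (huX.trans h5.symm) huc h4
  have hT' : HT p v (PowerSeries.map ρ g') := by
    refine hT.conj hpp.pos (cz_map ρ hu0) ?_ (cz_map ρ hg0) ?_
    · rw [coeff_map]
      exact (isUnit_one_of_sm huX).map ρ
    · rw [← map_comp ρ hg0, ← map_comp ρ hu0, huc]
  have hid : φ = AlgHom.id W A := by
    have h7 : Ideal.span (Set.range v) = Ideal.span (Set.range fun j => ρ (cf p r g' j)) := by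
      have h8 := hT'.span_eq le_rfl
      rw [Ij_last, Ij_last] at h8
      rw [← h8]
      congr 2
    have h8 := (comap_span ρ hker (cf p r g')).resolve_right (fun h => h hρ)
    refine gen_abs' (S := (algebraMap W A '' P) ∪ Set.range (cf p r g')) ?_ hk φ ?_
    · rw [hI, h7, h8, Ideal.span_union]
      rfl
    · rintro s (⟨x, -, rfl⟩ | ⟨j, rfl⟩)
      · exact φ.commutes x
      · have h9 := congrArg (coeff (p ^ ((j : ℕ) + 1))) h6.2
        rw [coeff_map] at h9
        exact h9.symm
  refine ⟨hid, ?_⟩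
  have h8 : PowerSeries.map (φ : A →+* A) u = u := by
    rw [hid]
    ext i
    rw [coeff_map]
    rfl
  obtain ⟨c, hc0, _, hcu⟩ := exists_inv hu0 (isUnit_one_of_sm huX)
  have h9 := h6.1
  rw [h8] at h9
  calc f = cm X f := (X_comp hf0).symm
    _ = cm (cm c u) f := by rw [hcu]
    _ = cm c (cm u f) := comp_assoc c hu0 hf0
    _ = X := by rw [← h9, hcu]

section mixed

variable {W k : Type*} [CommRing W] [Field k] {π : W →+* k} {m : ℕ}

theorem mem_mP_iff {x : MvPowerSeries (Fin m) W} : x ∈ mP m (RingHom.ker π) ↔ resd π m x = 0 :=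
  Iff.rfl

theorem isUnit_of_pi (hπ : Function.Surjective π) [IsAdicComplete (RingHom.ker π) W] {x : W}
    (hx : π x ≠ 0) : IsUnit x := by
  obtain ⟨y, hy⟩ := hπ (π x)⁻¹
  have h1 : x * y - 1 ∈ RingHom.ker π := by
    rw [RingHom.mem_ker, map_sub, map_mul, hy, map_one, mul_inv_cancel₀ hx, sub_self]
  have h2 := IsAdicComplete.le_jacobson_bot (RingHom.ker π) h1
  have h3 := Ideal.mem_jacobson_bot.1 h2 1
  rw [mul_one, sub_add_cancel] at h3
  exact isUnit_of_mul_isUnit_left h3

theorem isUnit_of_resd (hπ : Function.Surjective π) [IsAdicComplete (RingHom.ker π) W]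
    {x : MvPowerSeries (Fin m) W} (hx : resd π m x ≠ 0) : IsUnit x := by
  rw [MvPowerSeries.isUnit_iff_constantCoeff]
  exact isUnit_of_pi hπ hx

/-- ring homomorphisms over `W` which respect the maximal ideal are the identity modulo it -/
theorem resd_alg {φ : MvPowerSeries (Fin m) W →ₐ[W] MvPowerSeries (Fin m) W}
    (hφ : ∀ x, resd π m x = 0 → resd π m (φ x) = 0) (x : MvPowerSeries (Fin m) W) :
    resd π m (φ x) = resd π m x := by
  have h1 : resd π m (x - algebraMap W _ (MvPowerSeries.constantCoeff x)) = 0 := by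
    show π (MvPowerSeries.constantCoeff (x - MvPowerSeries.C (MvPowerSeries.constantCoeff x))) = 0
    rw [map_sub, MvPowerSeries.constantCoeff_C, sub_self, map_zero]
  have h2 := hφ _ h1
  rw [map_sub, φ.commutes] at h2
  rw [map_sub, sub_eq_zero] at h2
  rw [map_sub, sub_eq_zero] at h1
  rw [h2, ← h1]

/-- automorphisms over `W` are the identity modulo the maximal ideal -/
theorem resd_equiv (hπ : Function.Surjective π) [IsAdicComplete (RingHom.ker π) W]
    (φ : MvPowerSeries (Fin m) W ≃ₐ[W] MvPowerSeries (Fin m) W) (x : MvPowerSeries (Fin m) W) :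
    resd π m (φ x) = resd π m x := by
  refine resd_alg (φ := (φ : MvPowerSeries (Fin m) W →ₐ[W] MvPowerSeries (Fin m) W)) ?_ x
  intro y hy
  by_contra h
  have h1 : IsUnit (φ y) := isUnit_of_resd hπ h
  have h2 : IsUnit y := by
    have h3 := h1.map φ.symm
    rwa [φ.symm_apply_apply] at h3
  exact (h2.map (resd π m)).ne_zero hy

theorem comp_resd (hπ : Function.Surjective π) [IsAdicComplete (RingHom.ker π) W]
    (φ : MvPowerSeries (Fin m) W ≃ₐ[W] MvPowerSeries (Fin m) W) :
    (resd π m).comp (φ : MvPowerSeries (Fin m) W →+* MvPowerSeries (Fin m) W) = resd π m :=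
  RingHom.ext fun x => resd_equiv hπ φ x

theorem sm_iff' {f g : (MvPowerSeries (Fin m) W)⟦X⟧} :
    Sm (mP m (RingHom.ker π)) f g ↔ PowerSeries.map (resd π m) f = PowerSeries.map (resd π m) g := by
  rw [PowerSeries.ext_iff]
  refine forall_congr' fun i => ?_
  rw [mem_mP_iff, map_sub, sub_eq_zero, coeff_map, coeff_map]

theorem spc_mulSer (F : FormalGroup (MvPowerSeries (Fin m) W)) (n i : ℕ) :
    resd π m (coeff i (mulSer F n)) = coeff i (mulSer (spc π F) n) := by
  rw [spc, mulSer_map, coeff_map]

theorem spc_special (F : FormalGroup (MvPowerSeries (Fin m) W)) :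
    special (F.map (MvPowerSeries.map (σ := Fin m) π)) = spc π F := by
  rw [special, fmap_map, spc]
  congr 1

theorem p_mem (π : W →+* k) (p m : ℕ) [CharP k p] :
    (p : MvPowerSeries (Fin m) W) ∈ mP m (RingHom.ker π) := by
  rw [mem_mP_iff, map_natCast, CharP.cast_eq_zero]

theorem map_surj (hπ : Function.Surjective π) :
    Function.Surjective (MvPowerSeries.map (σ := Fin m) π) := by
  intro y
  choose s hs using hπ
  refine ⟨fun n => s (y n), ?_⟩
  ext n
  rw [MvPowerSeries.coeff_map]
  exact hs _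

/-- **UN**: homomorphisms are determined by their reductions. -/
theorem hom_unique_mix (hπ : Function.Surjective π) [IsAdicComplete (RingHom.ker π) W]
    {p h : ℕ} [Fact p.Prime] [CharP k p] {G H : FormalGroup (MvPowerSeries (Fin m) W)}
    (hH : H.IsComm) (hs : HasHeight p h (spc π G)) {B B' : (MvPowerSeries (Fin m) W)⟦X⟧}
    (hB : IsHom G H B) (hB' : IsHom G H B')
    (hr : PowerSeries.map (resd π m) B = PowerSeries.map (resd π m) B') : B = B' := by
  have := ac_mP (m := m) (RingHom.ker π)
  have hH' : (spc π H).IsComm := IsComm.map' hH _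
  have hpp : p.Prime := Fact.out
  refine LT.un2 (p := p) (I := mP m (RingHom.ker π)) (p_mem π p m)
    (Nat.one_le_pow h p hpp.pos) (cc_mulSer G p) (fun i hi => ?_)
    (fun i hi => ?_) (isUnit_of_resd hπ ?_) hB.1 hB'.1 (sm_iff'.mpr hr) (hB.mulSer p)
    (hB'.mulSer p)
  · rw [mem_mP_iff, spc_mulSer]
    exact H86.FG.coeff_mulSer_coprime hH' hi
  · rw [mem_mP_iff, spc_mulSer, hs.1 i hi]
  · rw [spc_mulSer]
    exact hs.2.ne_zero

theorem red_mul_mix (hπ : Function.Surjective π) [IsAdicComplete (RingHom.ker π) W]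
    {F : FormalGroup (MvPowerSeries (Fin m) W)} (a b : Lift W F) :
    PowerSeries.map (resd π m) (a * b).f =
      PowerSeries.subst (PowerSeries.map (resd π m) a.f) (PowerSeries.map (resd π m) b.f) := by
  have h1 : (a * b).f = PowerSeries.subst a.f
      (PowerSeries.map (a.g : MvPowerSeries (Fin m) W →+* MvPowerSeries (Fin m) W) b.f) := rfl
  rw [h1, map_subst' (hs_zero a.hom.1), map_map', comp_resd hπ]

theorem red_one_mix {F : FormalGroup (MvPowerSeries (Fin m) W)} :
    PowerSeries.map (resd π m) (1 : Lift W F).f = X := map_X' _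

/-- **GEN**: liftings are determined by their reductions. -/
theorem lift_unique_mix [IsNoetherianRing W] (hπ : Function.Surjective π)
    [IsAdicComplete (RingHom.ker π) W] (p : ℕ) [Fact p.Prime] [CharP k p]
    {F : FormalGroup (MvPowerSeries (Fin m) W)} (hc : F.IsComm)
    (hF : IsLT k p m (F.map (MvPowerSeries.map (σ := Fin m) π))) {a b : Lift W F}
    (h : PowerSeries.map (resd π m) a.f = PowerSeries.map (resd π m) b.f) : a = b := by
  have := ac_mP (m := m) (RingHom.ker π)
  have hsF : (spc π F).IsComm := IsComm.map' hc _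
  have hh : HasHeight p (m + 1) (spc π F) := by
    rw [← spc_special]
    exact H86.FG.height_of_isLT hF
  have key : ∀ c : Lift W F, PowerSeries.map (resd π m) c.f = X → c = 1 := by
    intro c hcX
    have hcoef : ∀ i, π (coeff i (mulSer (F.map (MvPowerSeries.constantCoeff (σ := Fin m) (R := W))) p)) =
        coeff i (mulSer (spc π F) p) := by
      intro i
      rw [← spc_mulSer, mulSer_map, coeff_map]
      rfl
    have hmem : ∀ x : W, algebraMap W (MvPowerSeries (Fin m) W) x ∈ mP m (RingHom.ker π) ↔ π x = 0 := by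
      intro x
      rw [mem_mP_iff]
      show π (MvPowerSeries.constantCoeff (MvPowerSeries.C x)) = 0 ↔ _
      rw [MvPowerSeries.constantCoeff_C]
    have h2 := ggen (W := W) (A := MvPowerSeries (Fin m) W) (A' := MvPowerSeries (Fin m) k) (p := p)
      (I := mP m (RingHom.ker π)) (p_mem π p m) (MvPowerSeries.map (σ := Fin m) π)
      (map_surj hπ)
      (P := RingHom.ker π) (ker_mv π (IsNoetherian.noetherian _))
      (r := m) (v := fun l : Fin m => (MvPowerSeries.X l : MvPowerSeries (Fin m) k))
      (g := mulSer F p) (g₀ := mulSer (F.map (MvPowerSeries.constantCoeff (σ := Fin m) (R := W))) p)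
      (by
        rw [← H86.FG.mI_eq]
        ext x
        rw [Ideal.mem_comap, RingHom.mem_ker, mem_mP_iff, MvPowerSeries.constantCoeff_map]
        rfl)
      (fun x => ⟨MvPowerSeries.constantCoeff x, by
        rw [mem_mP_iff]
        show π (MvPowerSeries.constantCoeff (x - MvPowerSeries.C (MvPowerSeries.constantCoeff x))) = 0
        rw [map_sub, MvPowerSeries.constantCoeff_C, sub_self, map_zero]⟩)
      (cc_mulSer F p)
      (by
        rw [sm_iff']
        ext i
        rw [coeff_map, coeff_map, coeff_map]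
        show _ = π (MvPowerSeries.constantCoeff (MvPowerSeries.C (coeff i
          (mulSer (F.map (MvPowerSeries.constantCoeff (σ := Fin m) (R := W))) p))))
        rw [MvPowerSeries.constantCoeff_C, hcoef, spc_mulSer])
      (by
        rw [← mulSer_map]
        exact H86.FG.ht_of_isLT hF)
      (fun i hi => by
        rw [hmem, hcoef]
        exact H86.FG.coeff_mulSer_coprime hsF hi)
      (fun i hi => by
        rw [hmem, hcoef, hh.1 i hi])
      (by
        refine isUnit_of_resd hπ fun h0 => hh.2.ne_zero ?_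
        rw [← hcoef]
        exact (hmem _).1 h0)
      (c.g : MvPowerSeries (Fin m) W →ₐ[W] MvPowerSeries (Fin m) W)
      (fun x hx => by
        rw [mem_mP_iff] at hx ⊢
        exact (resd_equiv hπ c.g x).trans hx)
      c.hom.1 (by rw [sm_iff', hcX, map_X'])
      (by
        have h3 := c.hom.mulSer p
        rw [mulSer_map] at h3
        exact h3)
    refine Lift.ext' ?_ h2.2
    have h3 : (1 : Lift W F).g = 1 := rfl
    rw [h3]
    refine AlgEquiv.ext fun x => ?_
    exact DFunLike.congr_fun h2.1 x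
  have h1 : PowerSeries.map (resd π m) (a⁻¹ * b).f = X := by
    rw [red_mul_mix hπ, ← h, ← red_mul_mix hπ, inv_mul_cancel, red_one_mix]
  exact (inv_mul_eq_one.mp (key _ h1))

end mixed

end Pool.Agent.H86.LT
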