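import Pool.Agent.H84.CA.Ev

/-!
# Chapter LT: evaluation of power series at elements of the ideal of an adically complete ring

PROOF.  Either through Mathlib (`MvPowerSeries.eval₂Hom` for the adic topologies), or by hand: `Φ_N f` = the value of the
truncation of `f` in degrees `< N` at `b`, modulo `I ^ N`, is a ring homomorphism (terms of degree `≥ N` have value in `I ^ N`);
they are compatible, lift to `B` (`IsAdicComplete.liftRingHom`, or `IsPrecomplete` coefficientwise).
Uniqueness: `H84.CA.mv_hom_ext`.
-/

open MvPowerSeries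

namespace Pool.Agent.H86.LT

theorem ev_adic {W B : Type*} [CommRing W] [CommRing B] {I : Ideal B} [IsAdicComplete I B]
    (l : W →+* B) {m : ℕ} (b : Fin m → B) (hb : ∀ i, b i ∈ I) :
    ∃ Φ : MvPowerSeries (Fin m) W →+* B, (∀ a, Φ (C a) = l a) ∧ ∀ i, Φ (X i) = b i := by
  let _ : UniformSpace W := ⊥
  have : DiscreteTopology W := ⟨rfl⟩
  have : DiscreteUniformity W := inferInstance
  let _ : WithIdeal B := ⟨I⟩
  have h0 : CompleteSpace B ∧ T2Space B := (IsAdic.isAdicComplete_iff (I := I) rfl).1 inferInstance
  have : CompleteSpace B := h0.1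
  have : T2Space B := h0.2
  have h1 : MvPowerSeries.HasEval b := by
    refine ⟨fun i => ?_, ?_⟩
    · exact WithIdeal.isTopologicallyNilpotent_of_mem (hb i)
    · rw [Filter.cofinite_eq_bot]
      exact Filter.tendsto_bot
  have h2 : Continuous l := continuous_of_discreteTopology
  refine ⟨MvPowerSeries.eval₂Hom h2 h1, fun a => ?_, fun i => ?_⟩
  · rw [MvPowerSeries.coe_eval₂Hom]
    exact MvPowerSeries.eval₂_C _ _ _
  · rw [MvPowerSeries.coe_eval₂Hom]
    exact MvPowerSeries.eval₂_X _ _ _

end Pool.Agent.H86.LT
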