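import Pool.Agent.H86.LT.Ac
import Pool.Agent.H86.LT.Ev

/-!
# Chapter LT: change of coordinates of `W⟦X_1, .., X_m⟧`

PROOF.  `Φ` = evaluation at `w` (`ev_adic` for `I = mP m P`, `ac_mP`), a `W`-algebra endomorphism.  Surjective: every `x ∈ mP ^ N` is
`Φ y + x'` with `y ∈ mP ^ N`, `x' ∈ mP ^ (N + 1)`: `mP ^ N` is generated by the products of `N` elements of `P` and
of the `w i` (`hw`), a coefficient `c ∈ W⟦X⟧` is `C (constantCoeff c)` modulo `mP`; sum up (completeness; `Φ (mP ^ N) ⊆ mP ^ N`).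
Injective: a surjective endomorphism of a noetherian ring.
-/

open MvPowerSeries

namespace Pool.Agent.H86.LT

private theorem inj_of_surj {R : Type*} [CommRing R] [IsNoetherianRing R] (f : R →+* R)
    (hf : Function.Surjective f) : Function.Injective f := by
  have hit : ∀ n : ℕ, Function.Surjective (f ^ n : R →+* R) := by
    intro n
    rw [RingHom.coe_pow]
    exact hf.iterate n
  obtain ⟨K, hK⟩ : ∃ K : ℕ →o Ideal R, ∀ n x, x ∈ K n ↔ (f ^ n : R →+* R) x = 0 := by
    refine ⟨⟨fun n => RingHom.ker (f ^ n : R →+* R), monotone_nat_of_le_succ fun n x hx => ?_⟩,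
      fun n x => RingHom.mem_ker⟩
    rw [RingHom.mem_ker] at hx ⊢
    rw [pow_succ', RingHom.mul_def, RingHom.comp_apply, hx, map_zero]
  obtain ⟨n, hn⟩ := monotone_stabilizes_iff_noetherian.mpr (inferInstance : IsNoetherian R R) K
  rw [injective_iff_map_eq_zero]
  intro x hx
  obtain ⟨y, hy⟩ := hit n x
  have h1 : y ∈ K (n + 1) := by
    rw [hK, pow_succ', RingHom.mul_def, RingHom.comp_apply, hy, hx]
  rw [← hn (n + 1) (Nat.le_succ n), hK, hy] at h1
  exact h1

theorem coord_mix {W : Type*} [CommRing W] [IsNoetherianRing W] {P : Ideal W} [IsAdicComplete P W]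
    {m : ℕ} (w : Fin m → MvPowerSeries (Fin m) W)
    (hw : P.map (C (σ := Fin m) (R := W)) ⊔ Ideal.span (Set.range w) = mP m P) :
    ∃ ψ : MvPowerSeries (Fin m) W ≃ₐ[W] MvPowerSeries (Fin m) W, ∀ i, ψ (X i) = w i := by
  have hac : IsAdicComplete (mP m P) (MvPowerSeries (Fin m) W) := ac_mP P
  have hwI : ∀ i, w i ∈ mP m P := by
    intro i
    rw [← hw]
    exact Ideal.mem_sup_right (Ideal.subset_span ⟨i, rfl⟩)
  obtain ⟨Φ, hΦC, hΦX⟩ := ev_adic (C (σ := Fin m) (R := W)) w hwI
  have hmap : (mP m P).map Φ = mP m P := by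
    conv_lhs => rw [mP_eq]
    rw [Ideal.map_sup, Ideal.map_map, Ideal.map_span, ← Set.range_comp, ← hw]
    have h1 : Φ.comp (C (σ := Fin m) (R := W)) = C := RingHom.ext hΦC
    have h2 : (Φ ∘ fun i : Fin m => (X i : MvPowerSeries (Fin m) W)) = w := funext hΦX
    rw [h1, h2]
  have hH : IsHausdorff ((mP m P).map Φ) (MvPowerSeries (Fin m) W) := by
    rw [hmap]
    exact inferInstance
  have hs : Function.Surjective Φ := by
    refine surjective_of_mk_map_comp_surjective (I := mP m P) Φ ?_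
    intro y
    obtain ⟨f, rfl⟩ := Ideal.Quotient.mk_surjective y
    refine ⟨C (constantCoeff f), ?_⟩
    rw [RingHom.comp_apply, hΦC, Ideal.Quotient.eq, hmap, mem_mP, map_sub, constantCoeff_C, sub_self]
    exact Ideal.zero_mem _
  have hi := inj_of_surj Φ hs
  refine ⟨AlgEquiv.ofBijective { Φ with commutes' := fun a => hΦC a } ⟨hi, hs⟩, fun i => ?_⟩
  exact hΦX i

end Pool.Agent.H86.LT
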