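import Pool.Agent.H86.LT.Vrm
import Pool.Agent.H86.LT.Unm
import Pool.Agent.H61.CA.Std

/-!
# Chapter LT: every automorphism of the special fibre lifts, over `W⟦X_1, .., X_m⟧`

PROOF (as `Pool/Agent/H49/LX/Lft.lean`, helper49).  `f₀` = coefficientwise lift of `θ` (constant coefficient `0`), its linear
coefficient is a unit; `exists_conj`; `versal_mix`; `f = u⁻¹ ∘ f₀ : F → F.map φ`.
`φ` is bijective: modulo `P`, `span_coeff_mulSer` for `f` gives that the `φ (X i)` generate the maximal ideal of `k⟦X⟧`;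
`span_lift`, `coord_mix` for `w i = φ (X i)`, `H84.CA.mv_hom_ext` (both are `W`-algebra homomorphisms, equal on the `X i`).
-/

open MvPowerSeries

namespace Pool.Agent.H86.LT

open Pool.Agent.H13.CA Pool.Agent.H40.CH3

private theorem span_lt {k : Type*} [Field k] {p : ℕ} [Fact p.Prime] {m : ℕ}
    {F : FormalGroup (MvPowerSeries (Fin m) k)} (hF : IsLT k p m F) :
    Istd k m m ≤
      Ideal.span {x | ∃ i, i < p ^ (m + 1) ∧ x = PowerSeries.coeff i (mulSer F p)} := by
  have hX : ∀ j : ℕ, j ≤ m → Istd k m j ≤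
      Ideal.span {x | ∃ i, i < p ^ (m + 1) ∧ x = PowerSeries.coeff i (mulSer F p)} := by
    intro j
    induction j with
    | zero =>
      intro _
      rw [H61.CA.Istd_zero]
      exact bot_le
    | succ j ih =>
      intro hj
      have h1 := ih (by omega)
      conv_lhs => rw [Istd]
      rw [Ideal.span_le]
      rintro _ ⟨i, hi, rfl⟩
      rcases Nat.lt_succ_iff_lt_or_eq.1 hi with h2 | h2
      · exact h1 (Ideal.subset_span ⟨i, h2, rfl⟩)
      · have h3 := hF.mid i
        rw [h2] at h3
        have h4 := h1 h3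
        have h5 : PowerSeries.coeff (p ^ (j + 1)) (mulSer F p) ∈
            Ideal.span {x | ∃ i, i < p ^ (m + 1) ∧ x = PowerSeries.coeff i (mulSer F p)} :=
          Ideal.subset_span ⟨p ^ (j + 1), Nat.pow_lt_pow_right (Fact.out : p.Prime).one_lt
            (by omega), rfl⟩
        have h6 := Ideal.sub_mem _ h5 h4
        rwa [sub_sub_cancel] at h6
  exact hX m le_rfl

private theorem istd_range {k : Type*} [Field k] {m : ℕ} :
    Istd k m m = Ideal.span (Set.range (X : Fin m → MvPowerSeries (Fin m) k)) := by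
  unfold Istd
  congr 1
  ext x
  constructor
  · rintro ⟨i, -, rfl⟩
    exact ⟨i, rfl⟩
  · rintro ⟨i, rfl⟩
    exact ⟨i, i.2, rfl⟩

theorem lift_exists_mix {W k : Type*} [CommRing W] [IsNoetherianRing W] [Field k] {π : W →+* k}
    (hπ : Function.Surjective π) [IsAdicComplete (RingHom.ker π) W] (p : ℕ) [Fact p.Prime]
    [CharP k p] {m : ℕ} {F : FormalGroup (MvPowerSeries (Fin m) W)} (hc : F.IsComm)
    (hF : IsLT k p m (F.map (MvPowerSeries.map (σ := Fin m) π))) {θ : PowerSeries k}
    (hθ : IsHom (spc π F) (spc π F) θ) (hu : IsUnit (PowerSeries.coeff 1 θ)) :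
    ∃ a : Lift W F, PowerSeries.map (resd π m) a.f = θ := by
  classical
  have hac := ac_mP (m := m) (RingHom.ker π)
  have hker := ker_mv (σ := Fin m) π (IsNoetherian.noetherian _)
  obtain ⟨ρ, hρ⟩ : ∃ ρ : MvPowerSeries (Fin m) W →+* MvPowerSeries (Fin m) k,
      ρ = MvPowerSeries.map (σ := Fin m) π := ⟨_, rfl⟩
  have hccρ : ∀ x, constantCoeff (ρ x) = resd π m x := by
    intro x
    rw [hρ, MvPowerSeries.constantCoeff_map]
    rfl
  -- a lift of `θ`
  obtain ⟨s, hs⟩ := hπ.hasRightInverse
  obtain ⟨f₀, hf₀⟩ : ∃ f₀ : PowerSeries (MvPowerSeries (Fin m) W),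
      ∀ i, PowerSeries.coeff i f₀ = if i = 0 then 0 else C (s (PowerSeries.coeff i θ)) :=
    ⟨PowerSeries.mk fun i => if i = 0 then 0 else C (s (PowerSeries.coeff i θ)), fun i =>
      PowerSeries.coeff_mk _ _⟩
  have h00 : PowerSeries.map (resd π m) f₀ = θ := by
    ext i
    rw [PowerSeries.coeff_map, hf₀]
    by_cases hi : i = 0
    · rw [if_pos hi, map_zero, hi, PowerSeries.coeff_zero_eq_constantCoeff_apply, hθ.1]
    · rw [if_neg hi]
      show π (constantCoeff (C (s (PowerSeries.coeff i θ)))) = _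
      rw [constantCoeff_C, hs]
  have h0 : PowerSeries.constantCoeff f₀ = 0 := by
    rw [← PowerSeries.coeff_zero_eq_constantCoeff_apply, hf₀, if_pos rfl]
  have hunit : ∀ v : PowerSeries (MvPowerSeries (Fin m) W),
      IsUnit (PowerSeries.coeff 1 (PowerSeries.map (resd π m) v)) → IsUnit (PowerSeries.coeff 1 v) := by
    intro v hv
    refine isUnit_of_resd hπ ?_
    rw [← PowerSeries.coeff_map]
    exact hv.ne_zero
  have hu0 : IsUnit (PowerSeries.coeff 1 f₀) := hunit f₀ (by rw [h00]; exact hu)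
  obtain ⟨G, hG, hGc⟩ := exists_conj F h0 hu0
  have hs' : spc π G = spc π F := by
    have h1 := hG.map (resd π m)
    rw [h00] at h1
    exact h1.target_unique hθ hu
  obtain ⟨φ, u, hφ, hu1, hu2⟩ := versal_mix hπ p hc hF (hGc hc) hs'
  have hu3 : IsUnit (PowerSeries.coeff 1 u) := hunit u (by
    rw [hu2, PowerSeries.coeff_one_X]
    exact isUnit_one)
  obtain ⟨u', hu', hu4, hl, hr⟩ := hu1.inv' hu3
  have hred : PowerSeries.map (resd π m) u' = PowerSeries.X := by
    have h1 := congrArg (PowerSeries.map (resd π m)) hl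
    rw [map_subst' (hs_zero hu1.1), map_X', hu2] at h1
    have h3 : PowerSeries.subst (PowerSeries.X : PowerSeries k)
        (PowerSeries.map (resd π m) u') = PowerSeries.map (resd π m) u' := PowerSeries.X_subst _
    rw [h3] at h1
    exact h1
  obtain ⟨f, hfd⟩ : ∃ f : PowerSeries (MvPowerSeries (Fin m) W), f = PowerSeries.subst f₀ u' :=
    ⟨_, rfl⟩
  have hf : IsHom F (F.map (φ : MvPowerSeries (Fin m) W →+* MvPowerSeries (Fin m) W)) f := by
    rw [hfd]
    exact hG.comp hu'
  have hfred : PowerSeries.map (resd π m) f = θ := by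
    rw [hfd, map_subst' (hs_zero h0), h00, hred, PowerSeries.subst_X (hs_zero hθ.1)]
  have hfu : IsUnit (PowerSeries.coeff 1 f) := hunit f (by rw [hfred]; exact hu)
  -- the images of the variables generate
  have hcX : ∀ i, resd π m (φ (X i)) = 0 := by
    intro i
    rw [hφ]
    show π (constantCoeff (X i)) = 0
    rw [constantCoeff_X, map_zero]
  have hle : ∀ x : MvPowerSeries (Fin m) W, resd π m x = 0 →
      ρ (φ x) ∈ Ideal.span (Set.range fun i => ρ (φ (X i))) := by
    have h1 : mP m (RingHom.ker π) ≤ (Ideal.span (Set.range fun i => ρ (φ (X i)))).comap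
        (ρ.comp (φ : MvPowerSeries (Fin m) W →+* MvPowerSeries (Fin m) W)) := by
      rw [mP_eq, sup_le_iff]
      constructor
      · rw [Ideal.map_le_iff_le_comap]
        intro c hcc
        rw [Ideal.mem_comap, Ideal.mem_comap]
        have h2 : (ρ.comp (φ : MvPowerSeries (Fin m) W →+* MvPowerSeries (Fin m) W)) (C c) = 0 := by
          show ρ (φ (algebraMap W (MvPowerSeries (Fin m) W) c)) = 0
          rw [φ.commutes, hρ]
          show MvPowerSeries.map π (C c) = 0
          rw [MvPowerSeries.map_C, RingHom.mem_ker.1 hcc, map_zero]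
        rw [h2]
        exact zero_mem _
      · rw [Ideal.span_le]
        rintro _ ⟨i, rfl⟩
        exact Ideal.subset_span ⟨i, rfl⟩
    intro x hx
    exact h1 (mem_mP_iff.2 hx)
  have hw : Ideal.span (Set.range fun i => ρ (φ (X i))) =
      Ideal.span (Set.range (X : Fin m → MvPowerSeries (Fin m) k)) := by
    refine le_antisymm ?_ ?_
    · rw [Ideal.span_le, ← istd_range]
      rintro _ ⟨i, rfl⟩
      refine H61.CA.mem_Istd_top.2 ?_
      show constantCoeff (ρ (φ (X i))) = 0
      rw [hccρ, hcX]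
    · rw [← istd_range]
      have hfρ := hf.map ρ
      have hfρu : IsUnit (PowerSeries.coeff 1 (PowerSeries.map ρ f)) := by
        rw [PowerSeries.coeff_map]
        exact hfu.map ρ
      have h1 := span_coeff_mulSer hfρ hfρu p (p ^ (m + 1))
      have hF' : IsLT k p m (F.map ρ) := by rw [hρ]; exact hF
      refine (span_lt hF').trans ?_
      rw [h1, Ideal.span_le]
      rintro _ ⟨i, hi, rfl⟩
      rw [mulSer_map, mulSer_map, PowerSeries.coeff_map, PowerSeries.coeff_map]
      refine hle _ ?_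
      rw [← hccρ, ← PowerSeries.coeff_map, ← mulSer_map]
      exact H61.CA.mem_Istd_top.1 (hF'.low m le_rfl i hi)
  have hw2 := span_lift hπ (fun i => φ (X i)) (by rw [← hρ]; exact hw) hker
  obtain ⟨ψ, hψ⟩ := coord_mix (fun i => φ (X i)) hw2
  have he : (φ : MvPowerSeries (Fin m) W →+* MvPowerSeries (Fin m) W) =
      (ψ : MvPowerSeries (Fin m) W →+* MvPowerSeries (Fin m) W) := by
    refine H84.CA.mv_hom_ext (mP m (RingHom.ker π)) _ _ (fun a => ?_) (fun i => (hψ i).symm)
      (fun i => mem_mP_iff.2 (hcX i))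
    exact (φ.commutes a).trans (ψ.commutes a).symm
  obtain ⟨a, -, ha⟩ := Lift.exists_of ψ f (by rw [← he]; exact hf) hfu
  exact ⟨a, by rw [ha]; exact hfred⟩

end Pool.Agent.H86.LT
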