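import Pool.Agent.H86.LT.Lead

/-!
# Chapter LT, part 2: symmetric cocycles of a formal group law (helper86)

`Coc Γ δ`: `δ` is a normalised symmetric `2`-cocycle of `Γ` with trivial coefficients; `cob Γ e` the coboundary of
`e`; `S Γ p δ = ∑_(i < p) δ ([i] x, x)`.  `coc_eq_zero`: `Γ` of height `h` in characteristic `p`; if the coefficients
of `S δ` of index `p ^ j`, `1 ≤ j < h`, and of index `p ^ h * i` vanish, then `δ = 0`.
-/

open PowerSeries

namespace Pool.Agent.H86.LT

open Pool.Agent.H13.CA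

section coeffs

variable {K : Type*} [CommRing K]

theorem coeff_zeroX (φ : MvPowerSeries (Fin 2) K) (n : ℕ) :
    PowerSeries.coeff n (MvPowerSeries.subst ![0, (X : K⟦X⟧)] φ : K⟦X⟧) =
      MvPowerSeries.coeff (ex 0 n) φ := by
  have hs : MvPowerSeries.HasSubst ![0, (X : K⟦X⟧)] := MvPowerSeries.HasSubst.zero_X
  rw [PowerSeries.coeff, MvPowerSeries.coeff_subst hs, finsum_eq_single _ (ex 0 n)]
  · have h2 : ((ex 0 n).prod fun s e => ![0, (X : K⟦X⟧)] s ^ e) = (X : K⟦X⟧) ^ n := by
      rw [Finsupp.prod_fintype _ _ (fun _ => pow_zero _), Fin.prod_univ_two, ex_zero, ex_one,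
        pow_zero, one_mul]
      rfl
    rw [h2]
    have h4 : MvPowerSeries.coeff (Finsupp.single () n) ((X : K⟦X⟧) ^ n) = (1 : K) :=
      PowerSeries.coeff_X_pow_self (R := K) n
    rw [h4, smul_eq_mul, mul_one]
  · intro d hd
    have h2 : (d.prod fun s e => ![0, (X : K⟦X⟧)] s ^ e) = 0 ^ d 0 * (X : K⟦X⟧) ^ d 1 := by
      rw [Finsupp.prod_fintype _ _ (fun _ => pow_zero _), Fin.prod_univ_two]
      rfl
    rw [h2]
    by_cases h1 : d 0 = 0
    · have h3 : d 1 ≠ n := by
        intro h3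
        apply hd
        rw [eq_ex d, h1, h3]
      have h4 : MvPowerSeries.coeff (Finsupp.single () n) ((X : K⟦X⟧) ^ (d 1)) = (0 : K) := by
        have := PowerSeries.coeff_X_pow (R := K) n (d 1)
        rw [if_neg (fun h => h3 h.symm)] at this
        exact this
      rw [h1, pow_zero, one_mul, h4, smul_zero]
    · rw [zero_pow h1, zero_mul, map_zero, smul_zero]

theorem coeff_swap (φ : MvPowerSeries (Fin 2) K) (a b : ℕ) :
    MvPowerSeries.coeff (ex a b)
      (MvPowerSeries.subst ![MvPowerSeries.X 1, (MvPowerSeries.X 0 : MvPowerSeries (Fin 2) K)] φ) =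
      MvPowerSeries.coeff (ex b a) φ := by
  classical
  have hs : MvPowerSeries.HasSubst
      ![MvPowerSeries.X 1, (MvPowerSeries.X 0 : MvPowerSeries (Fin 2) K)] :=
    hasSubst_pair (PowerSeries.HasSubst.X 1) (PowerSeries.HasSubst.X 0)
  have hp : ∀ d : Fin 2 →₀ ℕ, (d.prod fun s e =>
      ![MvPowerSeries.X 1, (MvPowerSeries.X 0 : MvPowerSeries (Fin 2) K)] s ^ e) =
      MvPowerSeries.monomial (ex (d 1) (d 0)) 1 := by
    intro d
    rw [Finsupp.prod_fintype _ _ (fun _ => pow_zero _), Fin.prod_univ_two, ← X_mul_X, mul_comm]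
    rfl
  rw [MvPowerSeries.coeff_subst hs, finsum_eq_single _ (ex b a)]
  · rw [hp, ex_zero, ex_one, MvPowerSeries.coeff_monomial, if_pos rfl, smul_eq_mul, mul_one]
  · intro d hd
    rw [hp, MvPowerSeries.coeff_monomial, if_neg, smul_zero]
    intro h
    apply hd
    obtain ⟨h1, h2⟩ := ex_inj h
    rw [eq_ex d, h1, h2]

/-- coefficients of `(X_s + X_t) ^ a X_r ^ b` in three variables -/
theorem coeff3 {s t r : Fin 3} (hst : s ≠ t) (hsr : s ≠ r) (htr : t ≠ r) (a b : ℕ)
    (e : Fin 3 →₀ ℕ) :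
    MvPowerSeries.coeff e ((MvPowerSeries.X s + MvPowerSeries.X t) ^ a * MvPowerSeries.X r ^ b :
      MvPowerSeries (Fin 3) K) = if e s + e t = a ∧ e r = b then (a.choose (e s) : K) else 0 := by
  classical
  have hall : ∀ x : Fin 3, x = s ∨ x = t ∨ x = r := by
    revert s t r
    decide
  have hm : ∀ c d : ℕ, (MvPowerSeries.X s ^ c * MvPowerSeries.X t ^ d * MvPowerSeries.X r ^ b :
      MvPowerSeries (Fin 3) K) = MvPowerSeries.monomial
        (Finsupp.single s c + Finsupp.single t d + Finsupp.single r b) 1 := by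
    intro c d
    rw [MvPowerSeries.X_pow_eq, MvPowerSeries.X_pow_eq, MvPowerSeries.X_pow_eq,
      MvPowerSeries.monomial_mul_monomial, MvPowerSeries.monomial_mul_monomial, one_mul, one_mul]
  have h1 : ((MvPowerSeries.X s + MvPowerSeries.X t) ^ a * MvPowerSeries.X r ^ b :
      MvPowerSeries (Fin 3) K) = ∑ c ∈ Finset.range (a + 1), MvPowerSeries.C ((a.choose c : ℕ) : K) *
        MvPowerSeries.monomial
          (Finsupp.single s c + Finsupp.single t (a - c) + Finsupp.single r b) 1 := by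
    rw [add_pow, Finset.sum_mul]
    refine Finset.sum_congr rfl fun c _ => ?_
    rw [← hm, map_natCast]
    ring
  have h2 : ∀ c : ℕ, e = Finsupp.single s c + Finsupp.single t (a - c) + Finsupp.single r b ↔
      e s = c ∧ e t = a - c ∧ e r = b := by
    intro c
    constructor
    · intro h
      rw [h]
      refine ⟨?_, ?_, ?_⟩
      · simp [hst.symm, hsr.symm]
      · simp [hst, htr.symm]
      · simp [hsr, htr]
    · rintro ⟨h3, h4, h5⟩
      ext x
      rcases hall x with rfl | rfl | rfl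
      · simp [hst.symm, hsr.symm, h3]
      · simp [hst, htr.symm, h4]
      · simp [hsr, htr, h5]
  rw [h1, map_sum]
  simp_rw [MvPowerSeries.coeff_C_mul, MvPowerSeries.coeff_monomial, h2]
  by_cases hc : e s + e t = a ∧ e r = b
  · rw [if_pos hc, Finset.sum_eq_single (e s)]
    · rw [if_pos ⟨rfl, by omega, hc.2⟩, mul_one]
    · intro c _ hne
      rw [if_neg, mul_zero]
      rintro ⟨h3, _⟩
      exact hne h3.symm
    · intro h
      exfalso
      apply h
      rw [Finset.mem_range]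
      omega
  · rw [if_neg hc]
    refine Finset.sum_eq_zero fun c hca => ?_
    rw [Finset.mem_range] at hca
    rw [if_neg, mul_zero]
    rintro ⟨h3, h4, h5⟩
    exact hc ⟨by omega, h5⟩

end coeffs

section coc

variable {k : Type*} [CommRing k]

/-- normalised symmetric `2`-cocycles -/
structure Coc (Γ : FormalGroup k) (δ : MvPowerSeries (Fin 2) k) : Prop where
  norm : MvPowerSeries.subst ![0, (X : k⟦X⟧)] δ = (0 : k⟦X⟧)
  symm : MvPowerSeries.subst
    ![MvPowerSeries.X 1, (MvPowerSeries.X 0 : MvPowerSeries (Fin 2) k)] δ = δ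
  coc : MvPowerSeries.subst
        ![MvPowerSeries.X 0, (MvPowerSeries.X 1 : MvPowerSeries (Fin 3) k)] δ +
      MvPowerSeries.subst ![MvPowerSeries.subst
        ![MvPowerSeries.X 0, (MvPowerSeries.X 1 : MvPowerSeries (Fin 3) k)] Γ.toPowerSeries,
        (MvPowerSeries.X 2 : MvPowerSeries (Fin 3) k)] δ =
    MvPowerSeries.subst
        ![MvPowerSeries.X 1, (MvPowerSeries.X 2 : MvPowerSeries (Fin 3) k)] δ +
      MvPowerSeries.subst ![(MvPowerSeries.X 0 : MvPowerSeries (Fin 3) k), MvPowerSeries.subst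
        ![MvPowerSeries.X 1, (MvPowerSeries.X 2 : MvPowerSeries (Fin 3) k)] Γ.toPowerSeries] δ

theorem hsX {σ : Type*} (s t : σ) : MvPowerSeries.HasSubst
    ![MvPowerSeries.X s, (MvPowerSeries.X t : MvPowerSeries σ k)] :=
  hasSubst_pair (PowerSeries.HasSubst.X s) (PowerSeries.HasSubst.X t)

theorem Coc.sub {Γ : FormalGroup k} {δ δ' : MvPowerSeries (Fin 2) k} (h : Coc Γ δ)
    (h' : Coc Γ δ') : Coc Γ (δ - δ') := by
  have hs1 : MvPowerSeries.HasSubst ![MvPowerSeries.subst
        ![MvPowerSeries.X 0, (MvPowerSeries.X 1 : MvPowerSeries (Fin 3) k)] Γ.toPowerSeries,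
        (MvPowerSeries.X 2 : MvPowerSeries (Fin 3) k)] :=
    hasSubst_pair (hs_F_subst Γ (PowerSeries.HasSubst.X 0) (PowerSeries.HasSubst.X 1))
      (PowerSeries.HasSubst.X 2)
  have hs2 : MvPowerSeries.HasSubst ![(MvPowerSeries.X 0 : MvPowerSeries (Fin 3) k),
      MvPowerSeries.subst ![MvPowerSeries.X 1, (MvPowerSeries.X 2 : MvPowerSeries (Fin 3) k)]
        Γ.toPowerSeries] :=
    hasSubst_pair (PowerSeries.HasSubst.X 0)
      (hs_F_subst Γ (PowerSeries.HasSubst.X 1) (PowerSeries.HasSubst.X 2))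
  have hz : MvPowerSeries.HasSubst ![0, (X : k⟦X⟧)] := MvPowerSeries.HasSubst.zero_X
  refine ⟨?_, ?_, ?_⟩
  · rw [MvPowerSeries.subst_sub hz, h.norm, h'.norm, sub_zero]
  · rw [MvPowerSeries.subst_sub (hsX 1 0), h.symm, h'.symm]
  · have e1 := h.coc
    have e2 := h'.coc
    rw [MvPowerSeries.subst_sub (hsX 0 1), MvPowerSeries.subst_sub (hsX 1 2),
      MvPowerSeries.subst_sub hs1, MvPowerSeries.subst_sub hs2]
    linear_combination e1 - e2

/-- the coboundary of `e` -/
noncomputable def cob (Γ : FormalGroup k) (e : k⟦X⟧) : MvPowerSeries (Fin 2) k :=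
  PowerSeries.subst Γ.toPowerSeries e -
    PowerSeries.subst (MvPowerSeries.X 0 : MvPowerSeries (Fin 2) k) e -
    PowerSeries.subst (MvPowerSeries.X 1 : MvPowerSeries (Fin 2) k) e

theorem cob_eval (Γ : FormalGroup k) (e : k⟦X⟧) {σ : Type*} {a b : MvPowerSeries σ k}
    (ha : PowerSeries.HasSubst a) (hb : PowerSeries.HasSubst b) :
    MvPowerSeries.subst ![a, b] (cob Γ e) =
      PowerSeries.subst (MvPowerSeries.subst ![a, b] Γ.toPowerSeries) e - PowerSeries.subst a e -
        PowerSeries.subst b e := by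
  have hs := hasSubst_pair ha hb
  rw [cob, MvPowerSeries.subst_sub hs, MvPowerSeries.subst_sub hs, mv_subst_subst (hs_F Γ) hs,
    mv_subst_subst (PowerSeries.HasSubst.X 0) hs, mv_subst_subst (PowerSeries.HasSubst.X 1) hs,
    MvPowerSeries.subst_X hs, MvPowerSeries.subst_X hs]
  rfl

theorem coc_cob (Γ : FormalGroup k) [Γ.IsComm] {e : k⟦X⟧} (he : constantCoeff e = 0) :
    Coc Γ (cob Γ e) := by
  have h0 : PowerSeries.HasSubst (MvPowerSeries.X 0 : MvPowerSeries (Fin 3) k) := HasSubst.X 0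
  have h1 : PowerSeries.HasSubst (MvPowerSeries.X 1 : MvPowerSeries (Fin 3) k) := HasSubst.X 1
  have h2 : PowerSeries.HasSubst (MvPowerSeries.X 2 : MvPowerSeries (Fin 3) k) := HasSubst.X 2
  refine ⟨?_, ?_, ?_⟩
  · rw [cob_eval Γ e PowerSeries.HasSubst.zero PowerSeries.HasSubst.X',
      Γ.zero_add PowerSeries.HasSubst.X', PowerSeries.subst_zero_of_constantCoeff_zero he,
      sub_zero, sub_self]
  · rw [cob_eval Γ e (PowerSeries.HasSubst.X 1) (PowerSeries.HasSubst.X 0),
      Γ.comm' (PowerSeries.HasSubst.X 1) (PowerSeries.HasSubst.X 0), pair_X,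
      MvPowerSeries.subst_self, cob]
    simp only [id]
    ring
  · rw [cob_eval Γ e h0 h1, cob_eval Γ e (hs_F_subst Γ h0 h1) h2, cob_eval Γ e h1 h2,
      cob_eval Γ e h0 (hs_F_subst Γ h1 h2), Γ.assoc' h0 h1 h2]
    ring

theorem Coc.coeff_symm {Γ : FormalGroup k} {δ : MvPowerSeries (Fin 2) k} (h : Coc Γ δ) (a b : ℕ) :
    MvPowerSeries.coeff (ex a b) δ = MvPowerSeries.coeff (ex b a) δ := by
  conv_lhs => rw [← h.symm, coeff_swap]

theorem Coc.coeff_left {Γ : FormalGroup k} {δ : MvPowerSeries (Fin 2) k} (h : Coc Γ δ) (b : ℕ) :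
    MvPowerSeries.coeff (ex 0 b) δ = 0 := by
  rw [← coeff_zeroX, h.norm, map_zero]

theorem Coc.coeff_right {Γ : FormalGroup k} {δ : MvPowerSeries (Fin 2) k} (h : Coc Γ δ) (a : ℕ) :
    MvPowerSeries.coeff (ex a 0) δ = 0 := by
  rw [h.coeff_symm, h.coeff_left]

theorem Coc.van_two {Γ : FormalGroup k} {δ : MvPowerSeries (Fin 2) k} (h : Coc Γ δ) : Van 2 δ := by
  intro d hd
  rw [degree_two] at hd
  rw [eq_ex d]
  rcases Nat.eq_zero_or_pos (d 0) with h0 | h0
  · rw [h0, h.coeff_left]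
  · have h1 : d 1 = 0 := by omega
    rw [h1, h.coeff_right]

/-- the relation between the leading coefficients of a cocycle -/
theorem Coc.rel {Γ : FormalGroup k} {δ : MvPowerSeries (Fin 2) k} (h : Coc Γ δ) {n : ℕ}
    (hn : Van n δ) (i j : ℕ) (hi : 0 < i) (hj : 0 < j) (hij : i + j < n) :
    (i + j).choose i • MvPowerSeries.coeff (ex (i + j) (n - (i + j))) δ =
      (n - i).choose j • MvPowerSeries.coeff (ex i (n - i)) δ := by
  classical
  obtain ⟨l, hl⟩ : ∃ l, n = i + j + l := ⟨n - (i + j), by omega⟩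
  set e : Fin 3 →₀ ℕ := Finsupp.single 0 i + Finsupp.single 1 j + Finsupp.single 2 l with he
  have e0 : e 0 = i := by simp [he]
  have e1 : e 1 = j := by simp [he]
  have e2 : e 2 = l := by simp [he]
  have hdeg : e.degree = n := by
    rw [Finsupp.degree_eq_sum, Fin.sum_univ_three, e0, e1, e2, hl]
  have cX : ∀ s : Fin 3, MvPowerSeries.constantCoeff (MvPowerSeries.X s : MvPowerSeries (Fin 3) k) = 0 :=
    fun s => MvPowerSeries.constantCoeff_X s
  have cF : ∀ s t : Fin 3, MvPowerSeries.constantCoeff (MvPowerSeries.subst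
      ![MvPowerSeries.X s, (MvPowerSeries.X t : MvPowerSeries (Fin 3) k)] Γ.toPowerSeries) = 0 :=
    fun s t => van_subst (van_one Γ.zero_constantCoeff) (cX s) (cX t) 0 (by simp)
  have cA : ∀ s t : Fin 3, MvPowerSeries.constantCoeff
      (MvPowerSeries.X s + MvPowerSeries.X t : MvPowerSeries (Fin 3) k) = 0 := by
    intro s t
    rw [map_add, cX, cX, add_zero]
  have v0 : ∀ x : MvPowerSeries (Fin 3) k, Van 2 (x - x) := by
    intro x d _
    rw [sub_self]
    exact map_zero _
  have hE := congrArg (MvPowerSeries.coeff e) h.coc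
  rw [map_add, map_add,
    coeff_subst_lead hn (cX 0) (cX 1) (cX 0) (cX 1) (v0 _) (v0 _) hdeg,
    coeff_subst_lead hn (cX 1) (cX 2) (cX 1) (cX 2) (v0 _) (v0 _) hdeg,
    coeff_subst_lead hn (cF 0 1) (cX 2) (cA 0 1) (cX 2) (van_F Γ (cX 0) (cX 1)) (v0 _) hdeg,
    coeff_subst_lead hn (cX 0) (cF 1 2) (cX 0) (cA 1 2) (v0 _) (van_F Γ (cX 1) (cX 2)) hdeg] at hE
  have z1 : ∑ a ∈ Finset.range (n + 1), MvPowerSeries.coeff (ex a (n - a)) δ *
      MvPowerSeries.coeff e (MvPowerSeries.X 0 ^ a * MvPowerSeries.X 1 ^ (n - a)) = 0 := by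
    refine Finset.sum_eq_zero fun a _ => ?_
    rw [MvPowerSeries.X_pow_eq, MvPowerSeries.X_pow_eq, MvPowerSeries.monomial_mul_monomial,
      MvPowerSeries.coeff_monomial, if_neg, mul_zero]
    intro h1
    rw [h1] at e2
    simp at e2
    omega
  have z2 : ∑ a ∈ Finset.range (n + 1), MvPowerSeries.coeff (ex a (n - a)) δ *
      MvPowerSeries.coeff e (MvPowerSeries.X 1 ^ a * MvPowerSeries.X 2 ^ (n - a)) = 0 := by
    refine Finset.sum_eq_zero fun a _ => ?_
    rw [MvPowerSeries.X_pow_eq, MvPowerSeries.X_pow_eq, MvPowerSeries.monomial_mul_monomial,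
      MvPowerSeries.coeff_monomial, if_neg, mul_zero]
    intro h1
    rw [h1] at e0
    simp at e0
    omega
  have z3 : ∑ a ∈ Finset.range (n + 1), MvPowerSeries.coeff (ex a (n - a)) δ *
      MvPowerSeries.coeff e ((MvPowerSeries.X 0 + MvPowerSeries.X 1) ^ a *
        MvPowerSeries.X 2 ^ (n - a)) =
      MvPowerSeries.coeff (ex (i + j) (n - (i + j))) δ * ((i + j).choose i : k) := by
    rw [Finset.sum_eq_single (i + j)]
    · rw [coeff3 (by decide) (by decide) (by decide), if_pos ⟨by rw [e0, e1], by rw [e2]; omega⟩, e0]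
    · intro a _ hne
      rw [coeff3 (by decide) (by decide) (by decide), if_neg, mul_zero]
      rintro ⟨h1, -⟩
      rw [e0, e1] at h1
      exact hne h1.symm
    · intro h1
      exfalso
      apply h1
      rw [Finset.mem_range]
      omega
  have z4 : ∑ a ∈ Finset.range (n + 1), MvPowerSeries.coeff (ex a (n - a)) δ *
      MvPowerSeries.coeff e (MvPowerSeries.X 0 ^ a *
        (MvPowerSeries.X 1 + MvPowerSeries.X 2) ^ (n - a)) =
      MvPowerSeries.coeff (ex i (n - i)) δ * ((n - i).choose j : k) := by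
    rw [Finset.sum_eq_single i]
    · rw [mul_comm (MvPowerSeries.X 0 ^ i), coeff3 (by decide) (by decide) (by decide),
        if_pos ⟨by rw [e1, e2]; omega, e0⟩, e1]
    · intro a _ hne
      rw [mul_comm (MvPowerSeries.X 0 ^ a), coeff3 (by decide) (by decide) (by decide), if_neg,
        mul_zero]
      rintro ⟨-, h1⟩
      rw [e0] at h1
      exact hne h1.symm
    · intro h1
      exfalso
      apply h1
      rw [Finset.mem_range]
      omega
  rw [z1, z2, z3, z4, zero_add, zero_add] at hE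
  rw [nsmul_eq_mul, nsmul_eq_mul, mul_comm, hE, mul_comm]

end coc

end Pool.Agent.H86.LT
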