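import Pool.Agent.H86.LT.Coc
import Pool.Agent.H86.NF.Un

/-!
# Chapter LT, part 3: a cocycle is determined by its `[p]`-part (helper86)
-/

open PowerSeries

namespace Pool.Agent.H86.LT

open Pool.Agent.H13.CA

variable {k : Type*} [CommRing k]

/-- `S δ = ∑_(i < p) δ ([i] x, x)` -/
noncomputable def S (Γ : FormalGroup k) (p : ℕ) (δ : MvPowerSeries (Fin 2) k) : k⟦X⟧ :=
  ∑ i ∈ Finset.range p, (MvPowerSeries.subst ![mulSer Γ i, (X : k⟦X⟧)] δ : k⟦X⟧)

theorem hsM (Γ : FormalGroup k) (i : ℕ) : MvPowerSeries.HasSubst ![mulSer Γ i, (X : k⟦X⟧)] :=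
  hasSubst_pair (hs_zero (cc_mulSer Γ i)) PowerSeries.HasSubst.X'

theorem S_sub (Γ : FormalGroup k) (p : ℕ) (δ δ' : MvPowerSeries (Fin 2) k) :
    S Γ p (δ - δ') = S Γ p δ - S Γ p δ' := by
  rw [S, S, S, ← Finset.sum_sub_distrib]
  refine Finset.sum_congr rfl fun i _ => ?_
  exact MvPowerSeries.subst_sub (hsM Γ i) δ δ'

theorem S_cob (Γ : FormalGroup k) (p : ℕ) {e : k⟦X⟧} (he : constantCoeff e = 0) :
    S Γ p (cob Γ e) = PowerSeries.subst (mulSer Γ p) e - (p : k⟦X⟧) * e := by
  have h1 : ∀ n : ℕ, ∑ i ∈ Finset.range n,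
      (MvPowerSeries.subst ![mulSer Γ i, (X : k⟦X⟧)] (cob Γ e) : k⟦X⟧) =
      PowerSeries.subst (mulSer Γ n) e - (n : k⟦X⟧) * e := by
    intro n
    induction n with
    | zero =>
      rw [Finset.sum_range_zero, mulSer, PowerSeries.subst_zero_of_constantCoeff_zero he,
        Nat.cast_zero, zero_mul, sub_zero]
    | succ n ih =>
      have h2 : (MvPowerSeries.subst ![mulSer Γ n, (X : k⟦X⟧)] (cob Γ e) : k⟦X⟧) =
          PowerSeries.subst (mulSer Γ (n + 1)) e - PowerSeries.subst (mulSer Γ n) e - e := by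
        have h3 := cob_eval Γ e (hs_zero (cc_mulSer Γ n)) (PowerSeries.HasSubst.X' (R := k))
        have h4 : PowerSeries.subst (X : k⟦X⟧) e = e := PowerSeries.X_subst e
        rw [h4] at h3
        exact h3
      rw [Finset.sum_range_succ, ih, h2, Nat.cast_succ]
      ring
  exact h1 p

/-- leading coefficient of `S δ` -/
theorem S_lead (Γ : FormalGroup k) (p : ℕ) {n : ℕ} {δ : MvPowerSeries (Fin 2) k}
    (hn : Van n δ) : PowerSeries.coeff n (S Γ p δ) =
      ∑ i ∈ Finset.range p, ∑ a ∈ Finset.range (n + 1),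
        MvPowerSeries.coeff (ex a (n - a)) δ * (i : k) ^ a := by
  rw [S, map_sum]
  refine Finset.sum_congr rfl fun i _ => ?_
  have hX : MvPowerSeries.constantCoeff (X : k⟦X⟧) = 0 := PowerSeries.constantCoeff_X
  have hiX : MvPowerSeries.constantCoeff (PowerSeries.C (i : k) * X : k⟦X⟧) = 0 := by
    have : PowerSeries.constantCoeff (PowerSeries.C (i : k) * X : k⟦X⟧) = 0 := by
      rw [map_mul, PowerSeries.constantCoeff_X, mul_zero]
    exact this
  have v0 : Van 2 ((X : k⟦X⟧) - X) := by
    intro d _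
    rw [sub_self]
    exact map_zero _
  have v1 : Van 2 (mulSer Γ i - PowerSeries.C (i : k) * X : k⟦X⟧) := by
    intro d hd
    have hd' : d = Finsupp.single () (d ()) := by
      ext
      simp
    have hdd : d () < 2 := by
      rw [hd', Finsupp.degree_single] at hd
      exact hd
    rw [hd']
    have h3 : PowerSeries.coeff (d ()) (mulSer Γ i - PowerSeries.C (i : k) * X : k⟦X⟧) = 0 := by
      rw [map_sub, PowerSeries.coeff_C_mul, sub_eq_zero]
      have h4 : d () = 0 ∨ d () = 1 := by omega
      rcases h4 with h4 | h4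
      · rw [h4, PowerSeries.coeff_zero_eq_constantCoeff_apply, cc_mulSer,
          PowerSeries.coeff_zero_X, mul_zero]
      · rw [h4, H86.FG.coeff_one_mulSer, PowerSeries.coeff_one_X, mul_one]
    exact h3
  have h5 := coeff_subst_lead hn (a := mulSer Γ i) (b := (X : k⟦X⟧))
    (a' := PowerSeries.C (i : k) * X) (b' := (X : k⟦X⟧)) (cc_mulSer Γ i) hX hiX hX v1 v0
    (e := Finsupp.single () n) (by rw [Finsupp.degree_single])
  refine Eq.trans h5 (Finset.sum_congr rfl fun a ha => ?_)
  rw [Finset.mem_range] at ha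
  congr 1
  have h6 : ((PowerSeries.C (i : k) * X : k⟦X⟧) ^ a * X ^ (n - a)) =
      PowerSeries.C ((i : k) ^ a) * X ^ n := by
    rw [mul_pow, mul_assoc, ← pow_add, map_pow]
    congr 2
    omega
  have h7 : PowerSeries.coeff n ((PowerSeries.C (i : k) * X : k⟦X⟧) ^ a * X ^ (n - a)) =
      (i : k) ^ a := by
    rw [h6, PowerSeries.coeff_C_mul, PowerSeries.coeff_X_pow_self, mul_one]
  exact h7

/-- the sum `∑_(i < p) ∑_(0 < a < n) C(n, a) i ^ a = p ^ n - p` -/
theorem sum_choose {n : ℕ} (hn : 1 ≤ n) (p : ℕ) :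
    ∑ i ∈ Finset.range p, ∑ a ∈ Finset.Ioo 0 n, n.choose a * i ^ a + p = p ^ n := by
  have h1 : ∀ i : ℕ, ∑ a ∈ Finset.Ioo 0 n, n.choose a * i ^ a + 1 + i ^ n = (i + 1) ^ n := by
    intro i
    rw [add_pow, Finset.sum_range_succ]
    have h2 : ∑ a ∈ Finset.range n, i ^ a * 1 ^ (n - a) * (n.choose a) =
        ∑ a ∈ Finset.Ioo 0 n, n.choose a * i ^ a + 1 := by
      have h3 : Finset.range n = insert 0 (Finset.Ioo 0 n) := by
        ext x
        simp only [Finset.mem_range, Finset.mem_insert, Finset.mem_Ioo]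
        omega
      rw [h3, Finset.sum_insert (by simp)]
      simp only [pow_zero, one_pow, mul_one, Nat.choose_zero_right]
      rw [add_comm]
      congr 1
      exact Finset.sum_congr rfl fun a _ => mul_comm _ _
    simp only [Nat.cast_id]
    rw [h2, Nat.sub_self, pow_zero, Nat.choose_self, mul_one, mul_one]
  induction p with
  | zero =>
    rw [Finset.sum_range_zero, zero_pow (by omega), add_zero]
  | succ p ih =>
    rw [Finset.sum_range_succ, ← h1 p, ← ih]
    ring

/-- the same sum divided by `p` -/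
theorem sum_choose_div {p t n : ℕ} [Fact p.Prime] (hn : 2 ≤ n) (ht : n = p ^ t) :
    ∑ i ∈ Finset.range p, ∑ a ∈ Finset.Ioo 0 n, (n.choose a / p) * i ^ a + 1 = p ^ (n - 1) := by
  have hpp : p.Prime := Fact.out
  have h1 := sum_choose (show 1 ≤ n by omega) p
  have h2 : ∑ i ∈ Finset.range p, ∑ a ∈ Finset.Ioo 0 n, n.choose a * i ^ a =
      p * ∑ i ∈ Finset.range p, ∑ a ∈ Finset.Ioo 0 n, (n.choose a / p) * i ^ a := by
    rw [Finset.mul_sum]
    refine Finset.sum_congr rfl fun i _ => ?_
    rw [Finset.mul_sum]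
    refine Finset.sum_congr rfl fun a ha => ?_
    rw [Finset.mem_Ioo] at ha
    have h3 : p ∣ n.choose a := by
      rw [ht]
      exact hpp.dvd_choose_pow (by omega) (by omega)
    rw [← mul_assoc, Nat.mul_div_cancel' h3]
  rw [h2] at h1
  have h4 : p ^ n = p * p ^ (n - 1) := by
    rw [← pow_succ']
    congr 1
    omega
  rw [h4] at h1
  have h5 : p * (∑ i ∈ Finset.range p, ∑ a ∈ Finset.Ioo 0 n, (n.choose a / p) * i ^ a + 1) =
      p * p ^ (n - 1) := by
    rw [mul_add, mul_one, h1]
  exact Nat.eq_of_mul_eq_mul_left hpp.pos h5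

theorem coeff_add_pow (n i : ℕ) (hi : i ≤ n) :
    MvPowerSeries.coeff (ex i (n - i))
      ((MvPowerSeries.X 0 + MvPowerSeries.X 1 : MvPowerSeries (Fin 2) k) ^ n) =
      (n.choose i : k) := by
  classical
  rw [add_pow, map_sum, Finset.sum_eq_single i]
  · rw [X_mul_X, ← map_natCast (MvPowerSeries.C (σ := Fin 2) (R := k)), mul_comm,
      MvPowerSeries.coeff_C_mul, MvPowerSeries.coeff_monomial, if_pos rfl, mul_one]
  · intro j _ hj
    rw [X_mul_X, ← map_natCast (MvPowerSeries.C (σ := Fin 2) (R := k)), mul_comm,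
      MvPowerSeries.coeff_C_mul, MvPowerSeries.coeff_monomial, if_neg, mul_zero]
    intro h
    exact hj (ex_inj h).1.symm
  · intro h
    exfalso
    apply h
    rw [Finset.mem_range]
    omega

/-- leading form of the coboundary of `c x ^ n` -/
theorem cob_lead (Γ : FormalGroup k) (c : k) (n : ℕ) :
    Van n (cob Γ (PowerSeries.C c * X ^ n)) ∧ ∀ i, 0 < i → i < n →
      MvPowerSeries.coeff (ex i (n - i)) (cob Γ (PowerSeries.C c * X ^ n)) = (n.choose i : k) * c := by
  have key : ∀ {a : MvPowerSeries (Fin 2) k}, PowerSeries.HasSubst a →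
      PowerSeries.subst a (PowerSeries.C c * X ^ n : k⟦X⟧) = MvPowerSeries.C c * a ^ n := by
    intro a ha
    rw [PowerSeries.subst_mul ha, PowerSeries.subst_pow ha, PowerSeries.subst_X ha,
      PowerSeries.subst_C]
  have h1 : cob Γ (PowerSeries.C c * X ^ n) = MvPowerSeries.C c * (Γ.toPowerSeries ^ n -
      MvPowerSeries.X 0 ^ n - MvPowerSeries.X 1 ^ n) := by
    rw [cob, key (hs_F Γ), key (PowerSeries.HasSubst.X 0), key (PowerSeries.HasSubst.X 1)]
    ring
  have vX : ∀ s : Fin 2, Van 1 (MvPowerSeries.X s : MvPowerSeries (Fin 2) k) :=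
    fun s => van_one (MvPowerSeries.constantCoeff_X s)
  have vG : Van 1 Γ.toPowerSeries := van_one Γ.zero_constantCoeff
  have vA : Van 1 (MvPowerSeries.X 0 + MvPowerSeries.X 1 : MvPowerSeries (Fin 2) k) :=
    (vX 0).add (vX 1)
  constructor
  · rw [h1]
    intro d hd
    rw [MvPowerSeries.coeff_C_mul, (((vG.pow n).sub ((vX 0).pow n)).sub ((vX 1).pow n)) d hd,
      mul_zero]
  · intro i hi hin
    have h2 : Van 2 (Γ.toPowerSeries - (MvPowerSeries.X 0 + MvPowerSeries.X 1)) := by
      have h3 := van_F Γ (MvPowerSeries.constantCoeff_X (0 : Fin 2))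
        (MvPowerSeries.constantCoeff_X (1 : Fin 2) (R := k))
      rw [pair_X, MvPowerSeries.subst_self] at h3
      exact h3
    have h3 := van_pow_sub vG vA h2 n (ex i (n - i)) (by rw [degree_ex]; omega)
    rw [map_sub, sub_eq_zero] at h3
    have h4 : MvPowerSeries.coeff (ex i (n - i))
        (MvPowerSeries.X 0 ^ n : MvPowerSeries (Fin 2) k) = 0 := by
      classical
      have h5 := X_mul_X (K := k) n 0
      rw [pow_zero, mul_one] at h5
      rw [h5, MvPowerSeries.coeff_monomial, if_neg]
      intro h6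
      have := (ex_inj h6).1
      omega
    have h5 : MvPowerSeries.coeff (ex i (n - i))
        (MvPowerSeries.X 1 ^ n : MvPowerSeries (Fin 2) k) = 0 := by
      classical
      have h5 := X_mul_X (K := k) 0 n
      rw [pow_zero, one_mul] at h5
      rw [h5, MvPowerSeries.coeff_monomial, if_neg]
      intro h6
      have := (ex_inj h6).1
      omega
    rw [h1, MvPowerSeries.coeff_C_mul, map_sub, map_sub, h3, h4, h5, coeff_add_pow n i hin.le,
      sub_zero, sub_zero, mul_comm]

theorem van_succ {Γ : FormalGroup k} {δ : MvPowerSeries (Fin 2) k} (h : Coc Γ δ) {n : ℕ}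
    (hn : Van n δ) (h0 : ∀ i, 0 < i → i < n → MvPowerSeries.coeff (ex i (n - i)) δ = 0) :
    Van (n + 1) δ := by
  intro d hd
  rcases Nat.lt_succ_iff_lt_or_eq.mp hd with h1 | h1
  · exact hn d h1
  · rw [degree_two] at h1
    rw [eq_ex d]
    rcases Nat.eq_zero_or_pos (d 0) with h2 | h2
    · rw [h2, h.coeff_left]
    · rcases Nat.eq_zero_or_pos (d 1) with h3 | h3
      · rw [h3, h.coeff_right]
      · have h4 : d 1 = n - d 0 := by omega
        rw [h4]
        exact h0 _ h2 (by omega)

/-- the order of `e ([p] x)` -/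
theorem coeff_subst_order {g e : k⟦X⟧} {q n : ℕ} (hg0 : constantCoeff g = 0)
    (hg : ∀ i < q, PowerSeries.coeff i g = 0) (he : ∀ i < n, PowerSeries.coeff i e = 0) :
    (∀ D < q * n, PowerSeries.coeff D (PowerSeries.subst g e : k⟦X⟧) = 0) ∧
      PowerSeries.coeff (q * n) (PowerSeries.subst g e : k⟦X⟧) =
        PowerSeries.coeff n e * (PowerSeries.coeff q g) ^ n := by
  have hs := hs_zero hg0
  have h1 : ∀ l D, D < q * l → PowerSeries.coeff D (g ^ l) = 0 := by
    intro l D hD
    have := (NF.coeff_pow_mem (I := (⊥ : Ideal k)) (d := q) (g := g)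
      (fun i hi => by rw [hg i hi]; exact zero_mem _) l).1 D hD
    exact this
  have h2 : PowerSeries.coeff (q * n) (g ^ n) = (PowerSeries.coeff q g) ^ n := by
    have := (NF.coeff_pow_mem (I := (⊥ : Ideal k)) (d := q) (g := g)
      (fun i hi => by rw [hg i hi]; exact zero_mem _) n).2
    exact sub_eq_zero.mp this
  constructor
  · intro D hD
    rw [PowerSeries.coeff_subst' hs]
    apply finsum_eq_zero_of_forall_eq_zero
    intro l
    rcases lt_or_ge l n with h | h
    · rw [he l h, zero_smul]
    · rw [h1 l D (lt_of_lt_of_le hD (Nat.mul_le_mul_left q h)), smul_zero]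
  · rw [PowerSeries.coeff_subst' hs, finsum_eq_single _ n, h2, smul_eq_mul]
    intro l hl
    rcases lt_or_gt_of_ne hl with h | h
    · rw [he l h, zero_smul]
    · rcases Nat.eq_zero_or_pos q with hq | hq
      · subst hq
        have hg1 : PowerSeries.coeff 0 (g ^ l) = 0 := by
          rw [PowerSeries.coeff_zero_eq_constantCoeff_apply, map_pow, hg0, zero_pow (by omega)]
        rw [Nat.zero_mul, hg1, smul_zero]
      · rw [h1 l _ ((Nat.mul_lt_mul_left hq).mpr h), smul_zero]

theorem S_lead' {Γ : FormalGroup k} (p : ℕ) {n : ℕ} {δ : MvPowerSeries (Fin 2) k} (h : Coc Γ δ)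
    (hn1 : 1 ≤ n) (hn : Van n δ) : PowerSeries.coeff n (S Γ p δ) =
      ∑ i ∈ Finset.range p, ∑ a ∈ Finset.Ioo 0 n,
        MvPowerSeries.coeff (ex a (n - a)) δ * (i : k) ^ a := by
  rw [S_lead Γ p hn]
  refine Finset.sum_congr rfl fun i _ => ?_
  refine (Finset.sum_subset ?_ ?_).symm
  · intro a ha
    rw [Finset.mem_Ioo] at ha
    rw [Finset.mem_range]
    omega
  · intro a ha ha'
    rw [Finset.mem_range] at ha
    rw [Finset.mem_Ioo] at ha'
    have h1 : a = 0 ∨ a = n := by omega
    rcases h1 with rfl | rfl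
    · rw [h.coeff_left, zero_mul]
    · rw [Nat.sub_self, h.coeff_right, zero_mul]

variable {p : ℕ} [hp : Fact p.Prime] [CharP k p]

/-- **the leading form of a symmetric cocycle** -/
theorem Coc.dich {Γ : FormalGroup k} {δ : MvPowerSeries (Fin 2) k} (h : Coc Γ δ) {n : ℕ}
    (hn2 : 2 ≤ n) (hn : Van n δ) :
    ((∃ m, n = p ^ m) ∧ ∃ c : k, (∀ i, 0 < i → i < n →
        MvPowerSeries.coeff (ex i (n - i)) δ = (n.choose i / p : ℕ) * c) ∧
        PowerSeries.coeff n (S Γ p δ) = -c) ∨
    ((¬ ∃ m, n = p ^ m) ∧ ∃ c : k, (∀ i, 0 < i → i < n →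
        MvPowerSeries.coeff (ex i (n - i)) δ = (n.choose i : k) * c) ∧
        PowerSeries.coeff n (S Γ p δ) = 0) := by
  have hV : ∀ v : k, p • v = 0 := by
    intro v
    rw [nsmul_eq_mul, CharP.cast_eq_zero, zero_mul]
  rcases LZ6.lazard hV n hn2 (fun i => MvPowerSeries.coeff (ex i (n - i)) δ)
    (fun i hi hin => by
      show MvPowerSeries.coeff (ex (n - i) (n - (n - i))) δ = MvPowerSeries.coeff (ex i (n - i)) δ
      have e : n - (n - i) = i := by omega
      rw [e, h.coeff_symm])
    (fun i j hi hj hij => h.rel hn i j hi hj hij) with ⟨hm, c, hc⟩ | ⟨hm, c, hc⟩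
  · left
    refine ⟨hm, c, fun i hi hin => ?_, ?_⟩
    · rw [hc i hi hin, nsmul_eq_mul]
    · obtain ⟨t, ht⟩ := hm
      rw [S_lead' p h (by omega) hn]
      have h1 : ∑ i ∈ Finset.range p, ∑ a ∈ Finset.Ioo 0 n,
          MvPowerSeries.coeff (ex a (n - a)) δ * (i : k) ^ a =
          ((∑ i ∈ Finset.range p, ∑ a ∈ Finset.Ioo 0 n, (n.choose a / p) * i ^ a : ℕ) : k) * c := by
        rw [Nat.cast_sum, Finset.sum_mul]
        refine Finset.sum_congr rfl fun i _ => ?_
        rw [Nat.cast_sum, Finset.sum_mul]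
        refine Finset.sum_congr rfl fun a ha => ?_
        rw [Finset.mem_Ioo] at ha
        have h2 := hc a ha.1 ha.2
        rw [h2, nsmul_eq_mul, Nat.cast_mul, Nat.cast_pow]
        ring
      have h2 := congrArg (Nat.cast : ℕ → k) (sum_choose_div hn2 ht)
      rw [Nat.cast_add, Nat.cast_one, Nat.cast_pow, CharP.cast_eq_zero k p, zero_pow (by omega)] at h2
      rw [h1, eq_neg_of_add_eq_zero_left h2]
      ring
  · right
    refine ⟨hm, c, fun i hi hin => ?_, ?_⟩
    · rw [hc i hi hin, nsmul_eq_mul]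
    · rw [S_lead' p h (by omega) hn]
      have h1 : ∑ i ∈ Finset.range p, ∑ a ∈ Finset.Ioo 0 n,
          MvPowerSeries.coeff (ex a (n - a)) δ * (i : k) ^ a =
          ((∑ i ∈ Finset.range p, ∑ a ∈ Finset.Ioo 0 n, n.choose a * i ^ a : ℕ) : k) * c := by
        rw [Nat.cast_sum, Finset.sum_mul]
        refine Finset.sum_congr rfl fun i _ => ?_
        rw [Nat.cast_sum, Finset.sum_mul]
        refine Finset.sum_congr rfl fun a ha => ?_
        rw [Finset.mem_Ioo] at ha
        have h2 := hc a ha.1 ha.2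
        rw [h2, nsmul_eq_mul, Nat.cast_mul, Nat.cast_pow]
        ring
      have h2 := congrArg (Nat.cast : ℕ → k) (sum_choose (show 1 ≤ n by omega) p)
      rw [Nat.cast_add, Nat.cast_pow, CharP.cast_eq_zero k p, zero_pow (by omega), add_zero] at h2
      rw [h1, h2, zero_mul]

/-- **INJ**: a cocycle whose `[p]`-part vanishes at `p ^ j`, `1 ≤ j < h`, and at multiples of `p ^ h` is zero. -/
theorem coc_eq_zero [IsDomain k] {Γ : FormalGroup k} [Γ.IsComm] {h : ℕ} (hΓ : HasHeight p h Γ)
    {δ : MvPowerSeries (Fin 2) k} (hδ : Coc Γ δ)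
    (h1 : ∀ j, 1 ≤ j → j < h → PowerSeries.coeff (p ^ j) (S Γ p δ) = 0)
    (h2 : ∀ i, 1 ≤ i → PowerSeries.coeff (p ^ h * i) (S Γ p δ) = 0) : δ = 0 := by
  have hpp : p.Prime := hp.out
  have hp0 : ((p : ℕ) : k⟦X⟧) = 0 := by
    rw [← map_natCast (PowerSeries.C (R := k)), CharP.cast_eq_zero, map_zero]
  -- `S δ` vanishes at all powers of `p` except `1`
  have hS : ∀ t, 1 ≤ t → PowerSeries.coeff (p ^ t) (S Γ p δ) = 0 := by
    intro t ht
    rcases lt_or_ge t h with h3 | h3
    · exact h1 t ht h3
    · have h4 : p ^ t = p ^ h * p ^ (t - h) := by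
        rw [← pow_add]
        congr 1
        omega
      rw [h4]
      exact h2 _ (Nat.one_le_pow _ _ hpp.pos)
  have hScob : ∀ e : k⟦X⟧, constantCoeff e = 0 →
      S Γ p (cob Γ e) = PowerSeries.subst (mulSer Γ p) e := by
    intro e he
    rw [S_cob Γ p he, hp0, zero_mul, sub_zero]
  apply eq_zero_of_van
  intro n
  induction n with
  | zero => exact Van.zero _
  | succ n ih =>
    rcases lt_or_ge n 2 with hn | hn
    · exact (hδ.van_two).mono (by omega)
    rcases hδ.dich hn ih with ⟨⟨t, ht⟩, c, hc, hSc⟩ | ⟨hnp, c, hc, -⟩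
    · -- a power of `p`
      have ht1 : 1 ≤ t := by
        rcases Nat.eq_zero_or_pos t with h0 | h0
        · rw [h0, pow_zero] at ht
          omega
        · exact h0
      have hc0 : c = 0 := by
        rw [ht, hS t ht1] at hSc
        exact neg_eq_zero.mp hSc.symm
      refine van_succ hδ ih fun i hi hin => ?_
      rw [hc i hi hin, hc0, mul_zero]
    · -- not a power of `p`
      have hq : 0 < p ^ h := pow_pos hpp.pos h
      -- the process
      have proc : ∀ D, n + 1 ≤ D → D ≤ p ^ h * n → ∃ e : k⟦X⟧, constantCoeff e = 0 ∧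
          (∀ i < n, PowerSeries.coeff i e = 0) ∧ PowerSeries.coeff n e = c ∧
          Van D (δ - cob Γ e) := by
        intro D hD
        induction D, hD using Nat.le_induction with
        | base =>
          intro _
          have he0 : constantCoeff (PowerSeries.C c * X ^ n : k⟦X⟧) = 0 := by
            rw [map_mul, map_pow, PowerSeries.constantCoeff_X, zero_pow (by omega), mul_zero]
          refine ⟨PowerSeries.C c * X ^ n, he0, fun i hi => ?_, ?_, ?_⟩
          · rw [PowerSeries.coeff_C_mul, PowerSeries.coeff_X_pow, if_neg hi.ne, mul_zero]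
          · rw [PowerSeries.coeff_C_mul, PowerSeries.coeff_X_pow_self, mul_one]
          · refine van_succ (hδ.sub (coc_cob Γ he0)) (ih.sub (cob_lead Γ c n).1) fun i hi hin => ?_
            rw [map_sub, hc i hi hin, (cob_lead Γ c n).2 i hi hin, sub_self]
        | succ D hD ihD =>
          intro hDq
          obtain ⟨e, he0, hen, hec, hV⟩ := ihD (by omega)
          have hδ' := hδ.sub (coc_cob Γ he0)
          have hord := coeff_subst_order (cc_mulSer Γ p) (fun i hi => hΓ.1 i hi) hen
          rcases hδ'.dich (p := p) (by omega) hV with ⟨⟨t, ht⟩, c', hc', hSc'⟩ | ⟨_, c', hc', -⟩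
          · have ht1 : 1 ≤ t := by
              rcases Nat.eq_zero_or_pos t with h0 | h0
              · rw [h0, pow_zero] at ht
                omega
              · exact h0
            have hc0 : c' = 0 := by
              have h5 : PowerSeries.coeff D (S Γ p δ) = 0 := by
                rw [ht]
                exact hS t ht1
              rw [S_sub, map_sub, h5, hScob e he0, hord.1 D (by omega), sub_zero] at hSc'
              exact neg_eq_zero.mp hSc'.symm
            refine ⟨e, he0, hen, hec, van_succ hδ' hV fun i hi hin => ?_⟩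
            rw [hc' i hi hin, hc0, mul_zero]
          · have he0' : constantCoeff (e + PowerSeries.C c' * X ^ D : k⟦X⟧) = 0 := by
              rw [map_add, he0, map_mul, map_pow, PowerSeries.constantCoeff_X,
                zero_pow (by omega), mul_zero, add_zero]
            have hadd : cob Γ (e + PowerSeries.C c' * X ^ D) =
                cob Γ e + cob Γ (PowerSeries.C c' * X ^ D) := by
              rw [cob, cob, cob, PowerSeries.subst_add (hs_F Γ),
                PowerSeries.subst_add (PowerSeries.HasSubst.X 0),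
                PowerSeries.subst_add (PowerSeries.HasSubst.X 1)]
              ring
            refine ⟨e + PowerSeries.C c' * X ^ D, he0', fun i hi => ?_, ?_, ?_⟩
            · rw [map_add, hen i hi, PowerSeries.coeff_C_mul, PowerSeries.coeff_X_pow,
                if_neg (by omega), mul_zero, add_zero]
            · rw [map_add, hec, PowerSeries.coeff_C_mul, PowerSeries.coeff_X_pow,
                if_neg (by omega), mul_zero, add_zero]
            · have h6 : δ - cob Γ (e + PowerSeries.C c' * X ^ D) =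
                  (δ - cob Γ e) - cob Γ (PowerSeries.C c' * X ^ D) := by
                rw [hadd]
                ring
              refine van_succ (hδ.sub (coc_cob Γ he0')) ?_ fun i hi hin => ?_
              · rw [h6]
                exact hV.sub (cob_lead Γ c' D).1
              · rw [h6, map_sub, hc' i hi hin, (cob_lead Γ c' D).2 i hi hin, sub_self]
      have hc0 : c = 0 := by
        have hh : 1 ≤ h := by
          rcases Nat.eq_zero_or_pos h with h0 | h0
          · exfalso
            have h3 := hΓ.2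
            rw [h0, pow_zero, H86.FG.coeff_one_mulSer, CharP.cast_eq_zero] at h3
            exact not_isUnit_zero h3
          · exact h0
        have hqn : n + 1 ≤ p ^ h * n := by
          have : 2 ≤ p ^ h := le_trans hpp.two_le (Nat.le_self_pow (by omega) p)
          nlinarith
        obtain ⟨e, he0, hen, hec, hV⟩ := proc (p ^ h * n) hqn le_rfl
        have hδ' := hδ.sub (coc_cob Γ he0)
        have hord := coeff_subst_order (cc_mulSer Γ p) (fun i hi => hΓ.1 i hi) hen
        have hnp' : ¬ ∃ m, p ^ h * n = p ^ m := by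
          rintro ⟨m, hm⟩
          apply hnp
          have h3 : h ≤ m := by
            by_contra h4
            have h5 : p ^ m < p ^ h := Nat.pow_lt_pow_right hpp.one_lt (by omega)
            nlinarith
          refine ⟨m - h, ?_⟩
          have h6 : p ^ m = p ^ h * p ^ (m - h) := by
            rw [← pow_add]
            congr 1
            omega
          rw [h6] at hm
          exact Nat.eq_of_mul_eq_mul_left hq hm
        rcases hδ'.dich (p := p) (by omega) hV with ⟨h3, _⟩ | ⟨_, c', _, hSc'⟩
        · exact absurd h3 hnp'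
        · rw [S_sub, map_sub, h2 n (by omega), hScob e he0, hord.2, hec, zero_sub,
            neg_eq_zero] at hSc'
          rcases mul_eq_zero.mp hSc' with h4 | h4
          · exact h4
          · exfalso
            exact hΓ.2.ne_zero (pow_eq_zero_iff (by omega) |>.mp h4)
      refine van_succ hδ ih fun i hi hin => ?_
      rw [hc i hi hin, hc0, mul_zero]

end Pool.Agent.H86.LT
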