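import Pool.Agent.H13.CA.Grp
import Pool.Agent.H86.FG.Mul
import Pool.Agent.H44.CA.Coord
import Pool.Agent.H6.LZ.Laz

/-!
# Chapter LT, part 1: leading forms (helper86)

`Van n δ`: all coefficients of `δ` of total degree `< n` vanish.  `coeff_subst_lead`: the coefficients of degree `n`
of a substitution in a two-variable series with `Van n`.
-/

open PowerSeries

namespace Pool.Agent.H86.LT

open Pool.Agent.H13.CA

variable {K : Type*} [CommRing K]

/-- the exponent `(a, b)` -/
noncomputable def ex (a b : ℕ) : Fin 2 →₀ ℕ := Finsupp.single 0 a + Finsupp.single 1 b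

theorem ex_zero (a b : ℕ) : ex a b 0 = a := by simp [ex]

theorem ex_one (a b : ℕ) : ex a b 1 = b := by simp [ex]

theorem degree_two (d : Fin 2 →₀ ℕ) : d.degree = d 0 + d 1 := by
  rw [Finsupp.degree_eq_sum, Fin.sum_univ_two]

theorem degree_ex (a b : ℕ) : (ex a b).degree = a + b := by
  rw [degree_two, ex_zero, ex_one]

theorem eq_ex (d : Fin 2 →₀ ℕ) : d = ex (d 0) (d 1) := by
  ext s
  fin_cases s
  · exact (ex_zero _ _).symm
  · exact (ex_one _ _).symm

theorem ex_inj {a b a' b' : ℕ} (h : ex a b = ex a' b') : a = a' ∧ b = b' := by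
  constructor
  · have := DFunLike.congr_fun h 0
    rwa [ex_zero, ex_zero] at this
  · have := DFunLike.congr_fun h 1
    rwa [ex_one, ex_one] at this

/-- all coefficients of total degree `< n` vanish -/
def Van {σ : Type*} (n : ℕ) (δ : MvPowerSeries σ K) : Prop :=
  ∀ d : σ →₀ ℕ, d.degree < n → MvPowerSeries.coeff d δ = 0

theorem Van.mono {σ : Type*} {m n : ℕ} {δ : MvPowerSeries σ K} (h : Van n δ) (hmn : m ≤ n) :
    Van m δ := fun d hd => h d (lt_of_lt_of_le hd hmn)

theorem Van.sub {σ : Type*} {n : ℕ} {δ δ' : MvPowerSeries σ K} (h : Van n δ) (h' : Van n δ') :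
    Van n (δ - δ') := fun d hd => by rw [map_sub, h d hd, h' d hd, sub_zero]

theorem Van.add {σ : Type*} {n : ℕ} {δ δ' : MvPowerSeries σ K} (h : Van n δ) (h' : Van n δ') :
    Van n (δ + δ') := fun d hd => by rw [map_add, h d hd, h' d hd, add_zero]

theorem Van.mul {σ : Type*} {m n : ℕ} {δ δ' : MvPowerSeries σ K} (h : Van m δ) (h' : Van n δ') :
    Van (m + n) (δ * δ') := by
  classical
  intro d hd
  rw [MvPowerSeries.coeff_mul]
  refine Finset.sum_eq_zero fun x hx => ?_
  have hx' : x.1 + x.2 = d := Finset.HasAntidiagonal.mem_antidiagonal.mp hx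
  have h1 : x.1.degree + x.2.degree = d.degree := by rw [← map_add, hx']
  by_cases h2 : x.1.degree < m
  · rw [h _ h2, zero_mul]
  · rw [h' _ (by omega), mul_zero]

theorem Van.zero {σ : Type*} (δ : MvPowerSeries σ K) : Van 0 δ := fun _ hd => absurd hd (by omega)

theorem Van.pow {σ : Type*} {δ : MvPowerSeries σ K} (h : Van 1 δ) (n : ℕ) : Van n (δ ^ n) := by
  induction n with
  | zero => exact Van.zero _
  | succ n ih =>
    rw [pow_succ]
    exact ih.mul h

theorem van_one {σ : Type*} {δ : MvPowerSeries σ K} (h : MvPowerSeries.constantCoeff δ = 0) :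
    Van 1 δ := by
  intro d hd
  have h0 : d = 0 := (Finsupp.degree_eq_zero_iff d).1 (by omega)
  rw [h0]
  exact h

theorem eq_zero_of_van {σ : Type*} {δ : MvPowerSeries σ K} (h : ∀ n, Van n δ) : δ = 0 := by
  ext d
  rw [h (d.degree + 1) d (by omega)]
  rfl

/-- difference of products of series close to each other -/
theorem van_mul_sub {σ : Type*} {m n : ℕ} {a a' b b' : MvPowerSeries σ K} (ha : Van m a)
    (hb' : Van n b') (h : Van (m + 1) (a - a')) (h' : Van (n + 1) (b - b'))  :
    Van (m + n + 1) (a * b - a' * b') := by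
  have e : a * b - a' * b' = a * (b - b') + (a - a') * b' := by ring
  rw [e]
  exact (ha.mul h').add (Van.mono (h.mul hb') (by omega))

theorem van_pow_sub {σ : Type*} {a a' : MvPowerSeries σ K} (ha : Van 1 a) (ha' : Van 1 a')
    (h : Van 2 (a - a')) (n : ℕ) : Van (n + 1) (a ^ n - a' ^ n) := by
  induction n with
  | zero =>
    rw [pow_zero, pow_zero, sub_self]
    intro d _
    exact map_zero _
  | succ n ih =>
    rw [pow_succ, pow_succ]
    exact van_mul_sub (ha.pow n) ha' ih h

/-- the order of a substitution -/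
theorem van_subst {τ : Type*} {n : ℕ} {δ : MvPowerSeries (Fin 2) K} (hδ : Van n δ)
    {a b : MvPowerSeries τ K} (ha : MvPowerSeries.constantCoeff a = 0)
    (hb : MvPowerSeries.constantCoeff b = 0) : Van n (MvPowerSeries.subst ![a, b] δ) := by
  have hs : MvPowerSeries.HasSubst ![a, b] :=
    hasSubst_pair (PowerSeries.HasSubst.of_constantCoeff_zero ha)
      (PowerSeries.HasSubst.of_constantCoeff_zero hb)
  intro e he
  rw [MvPowerSeries.coeff_subst hs]
  apply finsum_eq_zero_of_forall_eq_zero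
  intro d
  by_cases hd : d.degree < n
  · rw [hδ d hd, zero_smul]
  · have h1 : (d.prod fun s e => (![a, b] s) ^ e) = a ^ d 0 * b ^ d 1 := by
      rw [Finsupp.prod_fintype _ _ (fun i => pow_zero _), Fin.prod_univ_two]
      rfl
    rw [h1, ((van_one ha).pow _).mul ((van_one hb).pow _) e (by rw [degree_two] at hd; omega),
      smul_zero]

/-- the homogeneous part of degree `n` of a two-variable series -/
noncomputable def hom (n : ℕ) (δ : MvPowerSeries (Fin 2) K) : MvPowerSeries (Fin 2) K :=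
  ∑ a ∈ Finset.range (n + 1), MvPowerSeries.C (MvPowerSeries.coeff (ex a (n - a)) δ) *
    (MvPowerSeries.X 0 ^ a * MvPowerSeries.X 1 ^ (n - a))

theorem X_mul_X (a b : ℕ) : (MvPowerSeries.X 0 ^ a * MvPowerSeries.X 1 ^ b : MvPowerSeries (Fin 2) K) =
    MvPowerSeries.monomial (ex a b) 1 := by
  rw [MvPowerSeries.X_pow_eq, MvPowerSeries.X_pow_eq, MvPowerSeries.monomial_mul_monomial, one_mul]
  rfl

theorem coeff_hom {n : ℕ} {δ : MvPowerSeries (Fin 2) K} {d : Fin 2 →₀ ℕ} (hd : d.degree = n) :
    MvPowerSeries.coeff d (hom n δ) = MvPowerSeries.coeff d δ := by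
  classical
  rw [hom, map_sum, Finset.sum_eq_single (d 0)]
  · rw [degree_two] at hd
    have h1 : n - d 0 = d 1 := by omega
    rw [h1, MvPowerSeries.coeff_C_mul, X_mul_X, MvPowerSeries.coeff_monomial, if_pos (eq_ex d),
      mul_one, ← eq_ex d]
  · intro a ha hne
    rw [MvPowerSeries.coeff_C_mul, X_mul_X, MvPowerSeries.coeff_monomial, if_neg, mul_zero]
    intro h
    apply hne
    rw [h, ex_zero]
  · intro h
    exfalso
    apply h
    rw [Finset.mem_range]
    rw [degree_two] at hd
    omega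

theorem hom_van {n : ℕ} (δ : MvPowerSeries (Fin 2) K) : Van n (hom n δ) := by
  classical
  intro d hd
  rw [hom, map_sum]
  refine Finset.sum_eq_zero fun a ha => ?_
  rw [MvPowerSeries.coeff_C_mul, X_mul_X, MvPowerSeries.coeff_monomial, if_neg, mul_zero]
  intro h
  rw [h, degree_ex] at hd
  rw [Finset.mem_range] at ha
  omega

theorem van_sub_hom {n : ℕ} {δ : MvPowerSeries (Fin 2) K} (hδ : Van n δ) :
    Van (n + 1) (δ - hom n δ) := by
  intro d hd
  rw [map_sub]
  rcases Nat.lt_succ_iff_lt_or_eq.mp hd with h | h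
  · rw [hδ d h, hom_van δ d h, sub_zero]
  · rw [coeff_hom h, sub_self]

/-- **leading coefficients of a substitution** -/
theorem coeff_subst_lead {τ : Type*} {n : ℕ} {δ : MvPowerSeries (Fin 2) K} (hδ : Van n δ)
    {a b a' b' : MvPowerSeries τ K} (ha : MvPowerSeries.constantCoeff a = 0)
    (hb : MvPowerSeries.constantCoeff b = 0) (ha' : MvPowerSeries.constantCoeff a' = 0)
    (hb' : MvPowerSeries.constantCoeff b' = 0) (h : Van 2 (a - a')) (h' : Van 2 (b - b'))
    {e : τ →₀ ℕ} (he : e.degree = n) :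
    MvPowerSeries.coeff e (MvPowerSeries.subst ![a, b] δ) =
      ∑ i ∈ Finset.range (n + 1), MvPowerSeries.coeff (ex i (n - i)) δ *
        MvPowerSeries.coeff e (a' ^ i * b' ^ (n - i)) := by
  have hs : MvPowerSeries.HasSubst ![a, b] :=
    hasSubst_pair (PowerSeries.HasSubst.of_constantCoeff_zero ha)
      (PowerSeries.HasSubst.of_constantCoeff_zero hb)
  have h1 := van_subst (van_sub_hom hδ) ha hb e (by omega)
  rw [MvPowerSeries.subst_sub hs, map_sub, sub_eq_zero] at h1
  rw [h1, hom, ← MvPowerSeries.coe_substAlgHom hs, map_sum, map_sum]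
  refine Finset.sum_congr rfl fun i hi => ?_
  rw [Finset.mem_range] at hi
  rw [map_mul, MvPowerSeries.coe_substAlgHom hs, MvPowerSeries.subst_C, MvPowerSeries.coeff_C_mul,
    MvPowerSeries.subst_mul hs, MvPowerSeries.subst_pow hs, MvPowerSeries.subst_pow hs,
    MvPowerSeries.subst_X hs, MvPowerSeries.subst_X hs]
  have h2 : Van (i + (n - i) + 1) (a ^ i * b ^ (n - i) - a' ^ i * b' ^ (n - i)) :=
    van_mul_sub ((van_one ha).pow i) ((van_one hb').pow _) (van_pow_sub (van_one ha) (van_one ha') h i)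
      (van_pow_sub (van_one hb) (van_one hb') h' _)
  have h3 := h2 e (by omega)
  rw [map_sub, sub_eq_zero] at h3
  congr 1

/-- `F = x + y + ..` -/
theorem van_F (F : FormalGroup K) {τ : Type*} {a b : MvPowerSeries τ K}
    (ha : MvPowerSeries.constantCoeff a = 0) (hb : MvPowerSeries.constantCoeff b = 0) :
    Van 2 (MvPowerSeries.subst ![a, b] F.toPowerSeries - (a + b)) := by
  have hs : MvPowerSeries.HasSubst ![a, b] :=
    hasSubst_pair (PowerSeries.HasSubst.of_constantCoeff_zero ha)
      (PowerSeries.HasSubst.of_constantCoeff_zero hb)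
  have h1 : Van 2 (F.toPowerSeries - (MvPowerSeries.X 0 + MvPowerSeries.X 1)) := by
    classical
    intro d hd
    rw [degree_two] at hd
    rw [map_sub, map_add, eq_ex d]
    have hc : (d 0 = 0 ∧ d 1 = 0) ∨ (d 0 = 1 ∧ d 1 = 0) ∨ (d 0 = 0 ∧ d 1 = 1) := by omega
    have e00 : ex 0 0 = 0 := by simp [ex]
    have e10 : ex 1 0 = Finsupp.single 0 1 := by simp [ex]
    have e01 : ex 0 1 = Finsupp.single 1 1 := by simp [ex]
    rcases hc with ⟨h0, h1⟩ | ⟨h0, h1⟩ | ⟨h0, h1⟩
    · rw [h0, h1, e00, MvPowerSeries.coeff_zero_X, MvPowerSeries.coeff_zero_X]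
      have : MvPowerSeries.coeff (0 : Fin 2 →₀ ℕ) F.toPowerSeries = 0 := F.zero_constantCoeff
      rw [this, add_zero, sub_zero]
    · rw [h0, h1, e10, F.lin_coeff_X, MvPowerSeries.coeff_index_single_X,
        MvPowerSeries.coeff_index_single_X]
      simp
    · rw [h0, h1, e01, F.lin_coeff_Y, MvPowerSeries.coeff_index_single_X,
        MvPowerSeries.coeff_index_single_X]
      simp
  have h2 := van_subst h1 ha hb
  rw [MvPowerSeries.subst_sub hs, MvPowerSeries.subst_add hs, MvPowerSeries.subst_X hs,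
    MvPowerSeries.subst_X hs] at h2
  exact h2

end Pool.Agent.H86.LT
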