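import Pool.Agent.H49.LX.Cnj
import Pool.Agent.H49.LX.Mul
import Pool.Agent.H6.LZ.Laz
import Pool.Agent.H86.LT.Nf
import Pool.Agent.H86.LT.Inj

/-!
# Chapter LT: helper49's infinitesimal step of the uniqueness theorem with `p ∈ I` (helper86)

The proof of `Pool/Agent/H49/LX/One.lean` (helper49), with `(p : R) ∈ I` instead of `CharP R p`: `I ^ r` is killed
by `p` because `I ^ (r + 1) = 0`.
-/

open PowerSeries

namespace Pool.Agent.H86.LT

open Pool.Agent.H13.CA Pool.Agent.H49.LX
open Pool.Agent.H86.NF hiding gnf_step gnf_unique_aux gnf_unique gnf_exists_step gnf_exists pert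
open Pool.Agent.H86

variable {R : Type*} [CommRing R] (p : ℕ) [Fact p.Prime]

/-- the sum `∑_s ∑_i s ^ i (C (p ^ m, i) / p)` is `-1` on elements killed by `p` -/
private theorem sum_pow' {m : ℕ} (hm : 1 ≤ m) {c : R} (hc : (p : R) * c = 0) :
    (∑ s ∈ Finset.range p, ∑ i ∈ Finset.Ioo 0 (p ^ m),
      (s : R) ^ i * ((((p ^ m).choose i / p : ℕ)) : R)) * c = -c := by
  have hpp : p.Prime := Fact.out
  have hn : 2 ≤ p ^ m := le_trans hpp.two_le (Nat.le_self_pow (by omega) p)
  have h1 := congrArg (Nat.cast : ℕ → R) (sum_choose_div hn rfl)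
  have h2 : (∑ s ∈ Finset.range p, ∑ i ∈ Finset.Ioo 0 (p ^ m),
      (s : R) ^ i * ((((p ^ m).choose i / p : ℕ)) : R)) =
      ((∑ i ∈ Finset.range p, ∑ a ∈ Finset.Ioo 0 (p ^ m), ((p ^ m).choose a / p) * i ^ a : ℕ) : R) := by
    rw [Nat.cast_sum]
    refine Finset.sum_congr rfl fun i _ => ?_
    rw [Nat.cast_sum]
    refine Finset.sum_congr rfl fun a _ => ?_
    rw [Nat.cast_mul, Nat.cast_pow, mul_comm]
  rw [Nat.cast_add, Nat.cast_one, ← h2, Nat.cast_pow] at h1
  have h3 : (p : R) ^ (p ^ m - 1) * c = 0 := by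
    have h4 : p ^ m - 1 = (p ^ m - 2) + 1 := by omega
    rw [h4, pow_succ, mul_assoc, hc, mul_zero]
  rw [← h1] at h3
  linear_combination h3

private theorem laz_J {J : Ideal R} (hJp : ∀ v ∈ J, (p : R) * v = 0) {d : ℕ} (hd : 2 ≤ d) {G H : FormalGroup R} (hG : G.IsComm)
    (hH : H.IsComm) (h : EqD d G.toPowerSeries H.toPowerSeries)
    (hJ : ∀ i j, c2 G.toPowerSeries i j - c2 H.toPowerSeries i j ∈ J) :
    ((∃ m, d = p ^ m) ∧ ∃ c ∈ J, ∀ i, 0 < i → i < d →
      c2 G.toPowerSeries i (d - i) - c2 H.toPowerSeries i (d - i) =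
        ((d.choose i / p : ℕ) : R) * c) ∨
    ((¬ ∃ m, d = p ^ m) ∧ ∃ c ∈ J, ∀ i, 0 < i → i < d →
      c2 G.toPowerSeries i (d - i) - c2 H.toPowerSeries i (d - i) = d.choose i • c) := by
  have hV : ∀ v : J, p • v = 0 := by
    intro v
    apply Subtype.ext
    rw [Submodule.coe_smul_of_tower, nsmul_eq_mul, hJp _ v.2]
    rfl
  have hl := LZ6.lazard (p := p) hV d hd (fun i =>
    (⟨c2 G.toPowerSeries i (d - i) - c2 H.toPowerSeries i (d - i), hJ _ _⟩ : J)) (by
      intro i hi hid
      apply Subtype.ext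
      show c2 G.toPowerSeries (d - i) (d - (d - i)) - c2 H.toPowerSeries (d - i) (d - (d - i)) =
        c2 G.toPowerSeries i (d - i) - c2 H.toPowerSeries i (d - i)
      rw [show d - (d - i) = i by omega, cmp_symm hG (d - i) i, cmp_symm hH (d - i) i]) (by
      intro i j hi hj hij
      apply Subtype.ext
      rw [Submodule.coe_smul_of_tower, Submodule.coe_smul_of_tower]
      exact cmp_assoc hd h hi hj hij)
  rcases hl with ⟨hm, c, hc⟩ | ⟨hm, c, hc⟩
  · left
    refine ⟨hm, c, c.2, fun i hi hid => ?_⟩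
    have h1 := congrArg Subtype.val (hc i hi hid)
    rw [Submodule.coe_smul_of_tower, nsmul_eq_mul] at h1
    exact h1
  · right
    refine ⟨hm, c, c.2, fun i hi hid => ?_⟩
    have h1 := congrArg Subtype.val (hc i hi hid)
    rw [Submodule.coe_smul_of_tower] at h1
    exact h1

private theorem map_congr {J : Ideal R} {G H : FormalGroup R}
    (h : ∀ i j, c2 G.toPowerSeries i j - c2 H.toPowerSeries i j ∈ J) :
    G.map (Ideal.Quotient.mk J) = H.map (Ideal.Quotient.mk J) := by
  apply FormalGroup.ext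
  ext e
  have he : e = Finsupp.single 0 (e 0) + Finsupp.single 1 (e 1) := by
    ext s
    fin_cases s <;> simp
  rw [FormalGroup.map_toPowerSeries, FormalGroup.map_toPowerSeries, MvPowerSeries.coeff_map,
    MvPowerSeries.coeff_map, Ideal.Quotient.eq]
  have h1 := h (e 0) (e 1)
  unfold c2 at h1
  rwa [← he] at h1

private theorem congr_map {J : Ideal R} {G H : FormalGroup R}
    (h : G.map (Ideal.Quotient.mk J) = H.map (Ideal.Quotient.mk J)) (i j : ℕ) :
    c2 G.toPowerSeries i j - c2 H.toPowerSeries i j ∈ J := by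
  have h1 := congrArg (fun F => MvPowerSeries.coeff (Finsupp.single 0 i + Finsupp.single 1 j)
    (FormalGroup.toPowerSeries F)) h
  simp only [FormalGroup.map_toPowerSeries, MvPowerSeries.coeff_map, Ideal.Quotient.eq] at h1
  exact h1

private theorem conj_congr {J : Ideal R} {G G' : FormalGroup R} {u : R⟦X⟧} (h : IsHom G G' u)
    (hu : Sm J u X) (i j : ℕ) : c2 G'.toPowerSeries i j - c2 G.toPowerSeries i j ∈ J := by
  apply congr_map
  have h1 := h.map (Ideal.Quotient.mk J)
  rw [sm_iff_map.1 hu, map_X] at h1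
  exact h1.target_unique (IsHom.refl _) (by rw [coeff_one_X]; exact isUnit_one)

private theorem mulSer_congr {J : Ideal R} {G H : FormalGroup R}
    (h : ∀ i j, c2 G.toPowerSeries i j - c2 H.toPowerSeries i j ∈ J) (n : ℕ) :
    Sm J (mulSer G n) (mulSer H n) := by
  rw [sm_iff_map, ← mulSer_map, ← mulSer_map, map_congr h]

private theorem tri0 {K I : Ideal R} (hKI : K * I ≤ ⊥) {q : ℕ} (hq : 1 ≤ q) {e g : R⟦X⟧}
    (hg0 : constantCoeff g = 0) (hd : ∀ i < q, coeff i g ∈ I) (hu : IsUnit (coeff q g))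
    (he0 : constantCoeff e = 0) (he : ∀ i, coeff i e ∈ K) {N : ℕ}
    (h : ∀ i, 1 ≤ i → i < N → coeff (q * i) (cm e g) = 0) :
    (∀ i < N, coeff i e = 0) ∧ (coeff N e = 0 → coeff (q * N) (cm e g) = 0) := by
  have key : ∀ M, (∀ i < M, coeff i e = 0) →
      coeff (q * M) (cm e g) = coeff M e * coeff (q * M) (g ^ M) := by
    intro M hM
    have h1 := coeff_cm_mod hKI hq hg0 hd he M
    rw [Finset.sum_range_succ, Finset.sum_eq_zero, zero_add] at h1
    · rw [Ideal.mem_bot, sub_eq_zero] at h1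
      exact h1
    · intro l hl
      rw [hM l (Finset.mem_range.1 hl), zero_mul]
  have h0 : ∀ i < N, coeff i e = 0 := by
    intro i
    induction i using Nat.strong_induction_on with
    | _ i ih =>
      intro hi
      rcases Nat.eq_zero_or_pos i with rfl | hi0
      · rw [coeff_zero_eq_constantCoeff_apply, he0]
      have h1 := key i (fun l hl => ih l hl (hl.trans hi))
      rw [h i hi0 hi] at h1
      have h2 : coeff i e * (coeff (q * i) (g ^ i) - (coeff q g) ^ i) = 0 := by
        have h3 := hKI (Ideal.mul_mem_mul (he i) (coeff_pow_mem hd i).2)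
        exact Ideal.mem_bot.1 h3
      have h4 : coeff i e * (coeff q g) ^ i = 0 := by
        rw [mul_sub, ← h1, zero_sub, neg_eq_zero] at h2
        exact h2
      exact (hu.pow i).mul_left_eq_zero.1 h4
  refine ⟨h0, fun hN => ?_⟩
  rw [key N h0, hN, zero_mul]

private theorem cm_low {K I : Ideal R} (hKI : K * I ≤ ⊥) {q : ℕ} {e g : R⟦X⟧}
    (hg0 : constantCoeff g = 0) (hd : ∀ i < q, coeff i g ∈ I)
    (he0 : constantCoeff e = 0) (he : ∀ i, coeff i e ∈ K) {d : ℕ} (hdq : d < q) :
    coeff d (cm e g) = 0 := by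
  rw [cm, coeff_subst' (hsub hg0)]
  apply finsum_eq_zero_of_forall_eq_zero
  intro l
  rw [smul_eq_mul]
  rcases Nat.eq_zero_or_pos l with rfl | hl
  · rw [coeff_zero_eq_constantCoeff_apply, he0, zero_mul]
  · have h1 : coeff d (g ^ l) ∈ I := by
      apply (coeff_pow_mem hd l).1
      exact lt_of_lt_of_le hdq (Nat.le_mul_of_pos_right q hl)
    exact Ideal.mem_bot.1 (hKI (Ideal.mul_mem_mul (he l) h1))

section main

variable {I : Ideal R} {r : ℕ} {n : ℕ} {G H : FormalGroup R}

/-- the data of one stage -/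
private def Stg (I : Ideal R) (r d : ℕ) (G H : FormalGroup R) (u : R⟦X⟧) (G' : FormalGroup R) :
    Prop :=
  IsHom G G' u ∧ Sm (I ^ r) u X ∧ G'.IsComm ∧ (∀ m, coeff (p ^ m) (u - X) = 0) ∧
    EqD d G'.toPowerSeries H.toPowerSeries

/-- the relation between `[p]_G` and `[p]_G'` -/
private theorem stg_mul (hpI : (p : R) ∈ I) (hr : 1 ≤ r) (hI : I ^ (r + 1) = ⊥)
    (hGH : ∀ i j, c2 G.toPowerSeries i j - c2 H.toPowerSeries i j ∈ I ^ r)
    (hp : ∀ i, ¬ p ∣ i → coeff i (mulSer H p) ∈ I) {d : ℕ} {u : R⟦X⟧} {G' : FormalGroup R}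
    (hS : Stg p I r d G H u G') :
    (∀ i j, c2 G'.toPowerSeries i j - c2 H.toPowerSeries i j ∈ I ^ r) ∧
      mulSer G' p = mulSer G p + cm (u - X) (mulSer G p) := by
  obtain ⟨h1, h2, h3, h4, h5⟩ := hS
  have hG' : ∀ i j, c2 G'.toPowerSeries i j - c2 H.toPowerSeries i j ∈ I ^ r := by
    intro i j
    have := add_mem (conj_congr h1 h2 i j) (hGH i j)
    rwa [sub_add_sub_cancel] at this
  refine ⟨hG', ?_⟩
  have hrI : I ^ r ≤ I := Ideal.pow_le_self (by omega)
  have hp' : ∀ i, ¬ p ∣ i → coeff i (mulSer G' p) ∈ I := by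
    intro i hi
    have := add_mem (hrI (mulSer_congr hG' p i)) (hp i hi)
    rwa [sub_add_cancel] at this
  have h6 := LT.gnf_step (p := p) hpI hr (cc_mulSer G p) hp' h1.1 h2 (h1.mulSer p)
  rw [hI] at h6
  ext i
  have := h6 i
  rw [Ideal.mem_bot, sub_eq_zero] at this
  exact this.symm

private theorem step_d (hpI : (p : R) ∈ I) (hr : 1 ≤ r) (hI : I ^ (r + 1) = ⊥) (hn : 1 ≤ n)
    (hG : G.IsComm) (hH : H.IsComm)
    (hGH : ∀ i j, c2 G.toPowerSeries i j - c2 H.toPowerSeries i j ∈ I ^ r)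
    (hp : ∀ i, ¬ p ∣ i → coeff i (mulSer H p) ∈ I)
    (hd : ∀ i < p ^ n, coeff i (mulSer H p) ∈ I) (hu : IsUnit (coeff (p ^ n) (mulSer H p)))
    (h1 : ∀ i, 1 ≤ i → coeff (p ^ n * i) (mulSer G p) = coeff (p ^ n * i) (mulSer H p))
    (h2 : ∀ j, 1 ≤ j → j < n → coeff (p ^ j) (mulSer G p) = coeff (p ^ j) (mulSer H p)) (d : ℕ) :
    ∃ (u : R⟦X⟧) (G' : FormalGroup R), Stg p I r (d + 2) G H u G' := by
  have hpp : 1 < p := (Fact.out : p.Prime).one_lt
  have hrI : I ^ r ≤ I := Ideal.pow_le_self (by omega)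
  have hKI : I ^ r * I ≤ ⊥ := by rw [← pow_succ, hI]
  have hKK : I ^ r * I ^ r ≤ ⊥ := (Ideal.mul_mono_right hrI).trans hKI
  have hJp : ∀ v ∈ I ^ r, (p : R) * v = 0 := by
    intro v hv
    have h := hKI (Ideal.mul_mem_mul hv hpI)
    rw [mul_comm]
    exact Ideal.mem_bot.1 h
  have hq : 1 ≤ p ^ n := Nat.one_le_pow _ _ (by omega)
  have hdG : ∀ i < p ^ n, coeff i (mulSer G p) ∈ I := by
    intro i hi
    have := add_mem (hrI (mulSer_congr hGH p i)) (hd i hi)
    rwa [sub_add_cancel] at this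
  have huG : IsUnit (coeff (p ^ n) (mulSer G p)) := by
    have := h1 1 le_rfl
    rw [mul_one] at this
    rw [this]
    exact hu
  induction d with
  | zero =>
    refine ⟨X, G, IsHom.refl G, Sm.refl _ _, hG, fun m => by rw [sub_self, map_zero], ?_⟩
    intro i j hij
    have hc : ∀ F : FormalGroup R, c2 F.toPowerSeries i j =
        if i + j = 1 then 1 else 0 := by
      intro F
      unfold c2
      have h3 : i + j = 0 ∨ (i = 1 ∧ j = 0) ∨ (i = 0 ∧ j = 1) := by omega
      rcases h3 with h3 | ⟨rfl, rfl⟩ | ⟨rfl, rfl⟩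
      · have hi : i = 0 := by omega
        have hj : j = 0 := by omega
        subst hi hj
        rw [Finsupp.single_zero, Finsupp.single_zero, add_zero, if_neg (by decide)]
        exact F.zero_constantCoeff
      · rw [Finsupp.single_zero, add_zero, if_pos rfl]
        exact F.lin_coeff_X
      · rw [Finsupp.single_zero, zero_add, if_pos rfl]
        exact F.lin_coeff_Y
    rw [hc, hc]
  | succ d ih =>
    obtain ⟨u, G', hS⟩ := ih
    obtain ⟨hG'J, hmul⟩ := stg_mul p hpI hr hI hGH hp hS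
    obtain ⟨k1, k2, k3, k4, k5⟩ := hS
    have hD : 2 ≤ d + 2 := by omega
    rcases laz_J p hJp hD k3 hH k5 hG'J with ⟨⟨a, ha⟩, c, hcJ, hc⟩ | ⟨hna, c, hcJ, hc⟩
    · -- `d + 2 = p ^ a`
      refine ⟨u, G', k1, k2, k3, k4, ?_⟩
      have ha1 : 1 ≤ a := by
        rcases Nat.eq_zero_or_pos a with h | h
        · subst h
          rw [pow_zero] at ha
          omega
        · exact h
      obtain ⟨m1, m2⟩ := mul_cmp hD k5 p
      have m3 : coeff (p ^ a) (mulSer G' p) - coeff (p ^ a) (mulSer H p) = -c := by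
        rw [ha] at m2 hc
        rw [m2, Finset.sum_congr rfl (fun s _ => Finset.sum_congr rfl (fun i hi => by
          rw [hc i (Finset.mem_Ioo.1 hi).1 (Finset.mem_Ioo.1 hi).2, ← mul_assoc]))]
        rw [Finset.sum_congr rfl (fun s _ => (Finset.sum_mul _ _ _).symm), ← Finset.sum_mul,
          sum_pow' p ha1 (hJp c hcJ)]
      have he0 : constantCoeff (u - X) = 0 := by
        rw [map_sub, k1.1, constantCoeff_X, sub_zero]
      have heK : ∀ i, coeff i (u - X) ∈ I ^ r := fun i => by rw [map_sub]; exact k2 i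
      have m4 : coeff (p ^ a) (cm (u - X) (mulSer G p)) = 0 ∧
          coeff (p ^ a) (mulSer G p) = coeff (p ^ a) (mulSer H p) := by
        rcases Nat.lt_or_ge a n with han | han
        · exact ⟨cm_low hKI (cc_mulSer G p) hdG he0 heK (Nat.pow_lt_pow_right hpp han),
            h2 a ha1 han⟩
        · have hs : p ^ a = p ^ n * p ^ (a - n) := by rw [← pow_add]; congr 1; omega
          have hs1 : 1 ≤ p ^ (a - n) := Nat.one_le_pow _ _ (by omega)
          rw [hs]
          refine ⟨(tri0 hKI hq (cc_mulSer G p) hdG huG he0 heK (N := p ^ (a - n)) ?_).2 (k4 _),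
            h1 _ hs1⟩
          intro i hi1 hi2
          have h3 : p ^ n * i < d + 2 := by
            rw [ha, hs]
            exact (Nat.mul_lt_mul_left (by omega)).2 hi2
          have h4 := m1 _ h3
          rw [hmul, map_add, h1 i hi1, add_eq_left] at h4
          exact h4
      have hc0 : c = 0 := by
        rw [hmul, map_add, m4.1, m4.2, add_zero, sub_self] at m3
        exact neg_eq_zero.1 m3.symm
      intro i j hij
      rcases Nat.lt_or_ge (i + j) (d + 2) with h3 | h3
      · exact k5 i j h3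
      · have h4 : j = d + 2 - i := by omega
        rcases Nat.eq_zero_or_pos i with rfl | hi
        · rw [h4, c2_right G' (by omega), c2_right H (by omega)]
        rcases Nat.eq_zero_or_pos j with rfl | hj
        · rw [c2_left G' (by omega), c2_left H (by omega)]
        have h5 := hc i hi (by omega)
        rw [hc0, mul_zero, sub_eq_zero, ← h4] at h5
        exact h5
    · -- not a power of `p`
      have hv0 : constantCoeff (X + C (-c) * X ^ (d + 2) : R⟦X⟧) = 0 := by
        simp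
      have hv1 : coeff 1 (X + C (-c) * X ^ (d + 2) : R⟦X⟧) = 1 := by
        rw [map_add, coeff_one_X, coeff_C_mul, coeff_X_pow, if_neg (by omega), mul_zero, add_zero]
      obtain ⟨G'', n1, n2⟩ := exists_conj G' hv0 (by rw [hv1]; exact isUnit_one)
      obtain ⟨n3, n4⟩ := conj_deg hD n1
      have hu' : cm (X + C (-c) * X ^ (d + 2)) u = u + C (-c) * u ^ (d + 2) := by
        rw [cm, subst_add (hsub k1.1), subst_X (hsub k1.1), subst_mul (hsub k1.1), subst_C,
          subst_pow (hsub k1.1), subst_X (hsub k1.1)]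
        rfl
      refine ⟨cm (X + C (-c) * X ^ (d + 2)) u, G'', k1.comp n1, ?_, n2 k3, ?_, ?_⟩
      · rw [hu']
        intro i
        rw [map_add, add_sub_right_comm, coeff_C_mul]
        exact add_mem (k2 i) (Ideal.mul_mem_right _ _ (neg_mem hcJ))
      · intro m
        rw [hu', add_sub_right_comm, map_add, k4, zero_add, coeff_C_mul]
        have h3 := k2.pow (d + 2) (p ^ m)
        have h4 : coeff (p ^ m) (X ^ (d + 2) : R⟦X⟧) = 0 := by
          rw [coeff_X_pow, if_neg]
          intro h5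
          exact hna ⟨m, h5.symm⟩
        rw [h4, sub_zero] at h3
        exact Ideal.mem_bot.1 (hKK (Ideal.mul_mem_mul (neg_mem hcJ) h3))
      · intro i j hij
        rcases Nat.lt_or_ge (i + j) (d + 2) with h3 | h3
        · rw [← n3 i j h3]
          exact k5 i j h3
        · have h4 : j = d + 2 - i := by omega
          rcases Nat.eq_zero_or_pos i with rfl | hi
          · rw [h4, c2_right G'' (by omega), c2_right H (by omega)]
          rcases Nat.eq_zero_or_pos j with rfl | hj
          · rw [c2_left G'' (by omega), c2_left H (by omega)]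
          have h5 := hc i hi (by omega)
          have h6 := n4 i hi (by omega)
          rw [← h4] at h5 h6
          rw [h6, smul_neg, ← h5]
          ring

end main

theorem one_step {I : Ideal R} (hpI : (p : R) ∈ I) {r : ℕ} (hr : 1 ≤ r) (hI : I ^ (r + 1) = ⊥) {n : ℕ} (hn : 1 ≤ n)
    {G H : FormalGroup R} (hG : G.IsComm) (hH : H.IsComm)
    (hGH : ∀ i j, c2 G.toPowerSeries i j - c2 H.toPowerSeries i j ∈ I ^ r)
    (hp : ∀ i, ¬ p ∣ i → coeff i (mulSer H p) ∈ I)
    (hd : ∀ i < p ^ n, coeff i (mulSer H p) ∈ I) (hu : IsUnit (coeff (p ^ n) (mulSer H p)))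
    (h1 : ∀ i, 1 ≤ i → coeff (p ^ n * i) (mulSer G p) = coeff (p ^ n * i) (mulSer H p))
    (h2 : ∀ j, 1 ≤ j → j < n → coeff (p ^ j) (mulSer G p) = coeff (p ^ j) (mulSer H p)) :
    G = H := by
  have hpp : 1 < p := (Fact.out : p.Prime).one_lt
  have hrI : I ^ r ≤ I := Ideal.pow_le_self (by omega)
  have hKI : I ^ r * I ≤ ⊥ := by rw [← pow_succ, hI]
  have hq : 1 ≤ p ^ n := Nat.one_le_pow _ _ (by omega)
  have hdG : ∀ i < p ^ n, coeff i (mulSer G p) ∈ I := by
    intro i hi
    have := add_mem (hrI (mulSer_congr hGH p i)) (hd i hi)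
    rwa [sub_add_cancel] at this
  have huG : IsUnit (coeff (p ^ n) (mulSer G p)) := by
    have := h1 1 le_rfl
    rw [mul_one] at this
    rw [this]
    exact hu
  apply eq_of_EqD
  intro N
  obtain ⟨u, G', hS⟩ := step_d p hpI hr hI hn hG hH hGH hp hd hu h1 h2 (p ^ n * N)
  obtain ⟨hG'J, hmul⟩ := stg_mul p hpI hr hI hGH hp hS
  obtain ⟨k1, k2, k3, k4, k5⟩ := hS
  obtain ⟨m1, -⟩ := mul_cmp (by omega) k5 p
  have he0 : constantCoeff (u - X) = 0 := by
    rw [map_sub, k1.1, constantCoeff_X, sub_zero]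
  have heK : ∀ i, coeff i (u - X) ∈ I ^ r := fun i => by rw [map_sub]; exact k2 i
  have h3 : ∀ i < N, coeff i (u - X) = 0 := by
    refine (tri0 hKI hq (cc_mulSer G p) hdG huG he0 heK (N := N) ?_).1
    intro i hi1 hi2
    have h3 : p ^ n * i < p ^ n * N + 2 := by
      have := (Nat.mul_lt_mul_left (a := p ^ n) (by omega)).2 hi2
      omega
    have h4 := m1 _ h3
    rw [hmul, map_add, h1 i hi1, add_eq_left] at h4
    exact h4
  have h4 := conj_low k1 (X_pow_dvd_iff.2 h3)
  intro i j hij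
  rw [h4 i j hij]
  apply k5
  have : N ≤ p ^ n * N := Nat.le_mul_of_pos_left N (by omega)
  omega

end Pool.Agent.H86.LT
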