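import Pool.Agent.H13.CA.Com
import Pool.Agent.H40.CH3.Defs
import Pool.Agent.H86.LT.Unq
import Pool.Agent.H86.LT.Crd
import Pool.Agent.H86.LT.Unm
import Pool.Agent.H86.FG.Fg

/-!
# Chapter LT: versality over `W⟦X_1, .., X_m⟧` (helper49)

`P = ker π`, `A = W⟦X⟧`, `I = mP m P = ker (resd π m)`; `A` is complete for `I` (`ac_mP`).

PROOF (as `Pool/Agent/H49/LX/Ver.lean`).  Reference group `Γ = (F.map constantCoeff).map C` over `A` (it has coefficients in
`W`, so is fixed by `W`-algebra homomorphisms), reference series `g₀ = mulSer Γ p`; `mulSer F p ≡ g₀ ≡ mulSer G p mod I`.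
Modulo `I`, `g₀` is `[p]` of `spc π F`, of height `m + 1` (`FG.height_of_isLT`).
`nfm` for `F` and `G`: `U : F → F'`, `V : G → G'`.  `w j = coeff (p ^ (j + 1)) (mulSer F' p)`: modulo `P` (over `k⟦X⟧`) `F'` is
conjugate to `F.map (map π)`, so `HT.conj`, `HT.span_eq`: the reductions of the `w j` generate the maximal ideal of `k⟦X⟧`;
hence `P.map C ⊔ span (range w) = mP m P` (`span_lift` below).  `ψ` = `coord_mix w`, `c` = `ev_adic` with
`X j ↦ coeff (p ^ (j + 1)) (mulSer G' p)`, `φ = c ∘ ψ⁻¹`, `φ x ≡ x mod I`.  `unq` for `F'.map φ` and `G'`.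
-/

open MvPowerSeries

namespace Pool.Agent.H86.LT

open Pool.Agent.H13.CA Pool.Agent.H40.CH3
open Pool.Agent.H49.LX (c2)

/-- generators of the maximal ideal of `k⟦X⟧` lift to generators of `mP m (ker π)` modulo `ker π` -/
theorem span_lift {W k : Type*} [CommRing W] [Field k] {π : W →+* k} (hπ : Function.Surjective π)
    {m : ℕ} (w : Fin m → MvPowerSeries (Fin m) W)
    (hw : Ideal.span (Set.range fun i => MvPowerSeries.map (σ := Fin m) π (w i)) =
      Ideal.span (Set.range (X : Fin m → MvPowerSeries (Fin m) k)))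
    (hker : RingHom.ker (MvPowerSeries.map (σ := Fin m) π) =
      (RingHom.ker π).map (C (σ := Fin m) (R := W))) :
    (RingHom.ker π).map (C (σ := Fin m) (R := W)) ⊔ Ideal.span (Set.range w) =
      mP m (RingHom.ker π) := by
  have h1 := (comap_span (MvPowerSeries.map (σ := Fin m) π) hker w).resolve_right
    (fun h => h (map_surj hπ))
  rw [← h1, hw, ← H86.FG.mI_eq]
  ext x
  rw [Ideal.mem_comap, RingHom.mem_ker, mem_mP_iff, MvPowerSeries.constantCoeff_map]
  rfl

theorem versal_mix {W k : Type*} [CommRing W] [IsNoetherianRing W] [Field k] {π : W →+* k}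
    (hπ : Function.Surjective π) [IsAdicComplete (RingHom.ker π) W] (p : ℕ) [Fact p.Prime]
    [CharP k p] {m : ℕ} {F : FormalGroup (MvPowerSeries (Fin m) W)} (hc : F.IsComm)
    (hF : IsLT k p m (F.map (MvPowerSeries.map (σ := Fin m) π)))
    {G : FormalGroup (MvPowerSeries (Fin m) W)} (hG : G.IsComm) (hs : spc π G = spc π F) :
    ∃ (φ : MvPowerSeries (Fin m) W →ₐ[W] MvPowerSeries (Fin m) W)
      (u : PowerSeries (MvPowerSeries (Fin m) W)),
      (∀ x, resd π m (φ x) = resd π m x) ∧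
      IsHom (F.map (φ : MvPowerSeries (Fin m) W →+* MvPowerSeries (Fin m) W)) G u ∧
      PowerSeries.map (resd π m) u = PowerSeries.X := by
  have hpp : p.Prime := Fact.out
  have hac := ac_mP (m := m) (RingHom.ker π)
  have hpI := p_mem π p m
  have hker := ker_mv (σ := Fin m) π (IsNoetherian.noetherian _)
  have hsF : (spc π F).IsComm := IsComm.map' hc _
  have hh : HasHeight p (m + 1) (spc π F) := by
    rw [← spc_special]
    exact H86.FG.height_of_isLT hF
  -- the reference series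
  obtain ⟨gW, hgW⟩ : ∃ gW : PowerSeries W,
      gW = mulSer (F.map (constantCoeff (σ := Fin m) (R := W))) p := ⟨_, rfl⟩
  obtain ⟨g₀, hg₀⟩ : ∃ g₀ : PowerSeries (MvPowerSeries (Fin m) W),
      ∀ i, PowerSeries.coeff i g₀ = algebraMap W (MvPowerSeries (Fin m) W) (PowerSeries.coeff i gW) :=
    ⟨PowerSeries.map (algebraMap W (MvPowerSeries (Fin m) W)) gW, fun i => PowerSeries.coeff_map _ _ _⟩
  have hres : ∀ i, resd π m (PowerSeries.coeff i g₀) = PowerSeries.coeff i (mulSer (spc π F) p) := by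
    intro i
    rw [hg₀]
    show π (constantCoeff (C (PowerSeries.coeff i gW))) = _
    rw [constantCoeff_C, hgW, ← spc_mulSer, mulSer_map, PowerSeries.coeff_map]
    rfl
  have hsm : ∀ H : FormalGroup (MvPowerSeries (Fin m) W), spc π H = spc π F →
      NF.Sm (mP m (RingHom.ker π)) (mulSer H p) g₀ := by
    intro H hH
    rw [sm_iff']
    ext i
    rw [PowerSeries.coeff_map, PowerSeries.coeff_map, spc_mulSer, hH, hres]
  have hpg : ∀ i, ¬ p ∣ i → PowerSeries.coeff i g₀ ∈ mP m (RingHom.ker π) := by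
    intro i hi
    rw [mem_mP_iff, hres]
    exact H86.FG.coeff_mulSer_coprime hsF hi
  have hdg : ∀ i < p ^ (m + 1), PowerSeries.coeff i g₀ ∈ mP m (RingHom.ker π) := by
    intro i hi
    rw [mem_mP_iff, hres, hh.1 i hi]
  have hug : IsUnit (PowerSeries.coeff (p ^ (m + 1)) g₀) := by
    refine isUnit_of_resd hπ ?_
    rw [hres]
    exact hh.2.ne_zero
  have h1n : 1 ≤ p ^ (m + 1) := Nat.one_le_pow _ _ hpp.pos
  obtain ⟨F', U, f1, f2, f3, f4, f5, f6⟩ := nfm p hpI h1n hc (hsm F rfl) hpg hdg hug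
  obtain ⟨G', V, g1, g2, g3, g4, g5, g6⟩ := nfm p hpI h1n hG (hsm G hs) hpg hdg hug
  have fr : PowerSeries.map (resd π m) U = PowerSeries.X := by
    rw [sm_iff', map_X'] at f2
    exact f2
  have gr : PowerSeries.map (resd π m) V = PowerSeries.X := by
    rw [sm_iff', map_X'] at g2
    exact g2
  have hX1 : IsUnit (PowerSeries.coeff 1 (PowerSeries.X : PowerSeries k)) := by
    rw [PowerSeries.coeff_one_X]
    exact isUnit_one
  have hsF' : spc π F' = spc π F := by
    have h1 := f1.map (resd π m)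
    rw [fr] at h1
    exact h1.target_unique (IsHom.refl (spc π F)) hX1
  have hsG' : spc π G' = spc π F := by
    have h1 := g1.map (resd π m)
    rw [gr] at h1
    rw [← hs]
    exact h1.target_unique (IsHom.refl (spc π G)) hX1
  -- the coordinates of `F'`
  obtain ⟨ρ, hρ⟩ : ∃ ρ : MvPowerSeries (Fin m) W →+* MvPowerSeries (Fin m) k,
      ρ = MvPowerSeries.map (σ := Fin m) π := ⟨_, rfl⟩
  obtain ⟨w, hw⟩ : ∃ w : Fin m → MvPowerSeries (Fin m) W, ∀ j,
      w j = PowerSeries.coeff (p ^ (j.val + 1)) (mulSer F' p) := ⟨_, fun _ => rfl⟩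
  have hspan : Ideal.span (Set.range fun j => ρ (w j)) =
      Ideal.span (Set.range (X : Fin m → MvPowerSeries (Fin m) k)) := by
    have f1' := f1.map ρ
    have hT := (H86.FG.ht_of_isLT (show IsLT k p m (F.map ρ) by rw [hρ]; exact hF)).conj hpp.pos
      f1'.1 (by rw [PowerSeries.coeff_map]; exact f3.map ρ) (cc_mulSer _ p) (f1'.mulSer p)
    have h1 := hT.span_eq le_rfl
    rw [NF.Ij_last, NF.Ij_last] at h1
    rw [← h1]
    congr 2
    funext j
    rw [NF.cf, mulSer_map, PowerSeries.coeff_map, hw]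
  obtain ⟨ψ, hψ⟩ := coord_mix w (span_lift hπ w (by rw [← hρ]; exact hspan) hker)
  have hψs : ∀ j, ψ.symm (w j) = X j := fun j => by rw [← hψ j, ψ.symm_apply_apply]
  -- the classifying map of `G'`
  have hb : ∀ j : Fin m, PowerSeries.coeff (p ^ (j.val + 1)) (mulSer G' p) ∈ mP m (RingHom.ker π) := by
    intro j
    rw [mem_mP_iff, spc_mulSer, hsG']
    exact hh.1 _ (Nat.pow_lt_pow_right hpp.one_lt (by omega))
  obtain ⟨c₀, hc₀, hcX⟩ := ev_adic (I := mP m (RingHom.ker π))
    (algebraMap W (MvPowerSeries (Fin m) W))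
    (fun j : Fin m => PowerSeries.coeff (p ^ (j.val + 1)) (mulSer G' p)) hb
  obtain ⟨c, hcc⟩ : ∃ c : MvPowerSeries (Fin m) W →ₐ[W] MvPowerSeries (Fin m) W,
      ∀ x, c x = c₀ x := ⟨{ c₀ with commutes' := fun a => hc₀ a }, fun _ => rfl⟩
  have hcI : ∀ x, resd π m x = 0 → resd π m (c x) = 0 := by
    have h1 : mP m (RingHom.ker π) ≤ (mP m (RingHom.ker π)).comap
        (c : MvPowerSeries (Fin m) W →+* MvPowerSeries (Fin m) W) := by
      conv_lhs => rw [mP_eq]
      rw [sup_le_iff]
      constructor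
      · rw [Ideal.map_le_iff_le_comap]
        intro a ha
        rw [Ideal.mem_comap, Ideal.mem_comap]
        show c (algebraMap W (MvPowerSeries (Fin m) W) a) ∈ mP m (RingHom.ker π)
        rw [c.commutes, mem_mP_iff]
        show π (constantCoeff (C a)) = 0
        rw [constantCoeff_C]
        exact ha
      · rw [Ideal.span_le]
        rintro _ ⟨j, rfl⟩
        show c (X j) ∈ mP m (RingHom.ker π)
        rw [hcc, hcX]
        exact hb j
    intro x hx
    exact h1 (mem_mP_iff.2 hx)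
  obtain ⟨φ, hφ⟩ : ∃ φ : MvPowerSeries (Fin m) W →ₐ[W] MvPowerSeries (Fin m) W,
      ∀ x, φ x = c (ψ.symm x) :=
    ⟨c.comp (ψ.symm : MvPowerSeries (Fin m) W →ₐ[W] MvPowerSeries (Fin m) W), fun _ => rfl⟩
  have hφr : ∀ x, resd π m (φ x) = resd π m x := by
    intro x
    rw [hφ, resd_alg hcI, resd_equiv hπ]
  have hφw : ∀ j, φ (w j) = PowerSeries.coeff (p ^ (j.val + 1)) (mulSer G' p) := by
    intro j
    rw [hφ, hψs, hcc, hcX]
  have hφg : ∀ i, φ (PowerSeries.coeff i g₀) = PowerSeries.coeff i g₀ := by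
    intro i
    rw [hg₀]
    exact φ.commutes _
  have hcr : (resd π m).comp (φ : MvPowerSeries (Fin m) W →+* MvPowerSeries (Fin m) W) = resd π m :=
    RingHom.ext hφr
  have hsp : spc π (F'.map (φ : MvPowerSeries (Fin m) W →+* MvPowerSeries (Fin m) W)) = spc π F := by
    rw [spc, fmap_map, hcr]
    exact hsF'
  have heq : F'.map (φ : MvPowerSeries (Fin m) W →+* MvPowerSeries (Fin m) W) = G' := by
    refine unq p (I := mP m (RingHom.ker π)) hpI (n := m + 1) (by omega) (IsComm.map' f4 _) g4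
      ?_ ?_ ?_ ?_ ?_ ?_
    · intro i j
      rw [mem_mP_iff, map_sub, sub_eq_zero]
      have h1 := congrArg (fun Q => c2 (FormalGroup.toPowerSeries Q) i j) (hsp.trans hsG'.symm)
      exact h1
    · intro i hi
      rw [mem_mP_iff, spc_mulSer, hsG']
      exact H86.FG.coeff_mulSer_coprime hsF hi
    · intro i hi
      rw [mem_mP_iff, spc_mulSer, hsG', hh.1 i hi]
    · refine isUnit_of_resd hπ ?_
      rw [spc_mulSer, hsG']
      exact hh.2.ne_zero
    · intro i hi
      rw [mulSer_map, PowerSeries.coeff_map, f6 i hi, g6 i hi]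
      exact hφg _
    · intro j hj hjn
      have h1 := hφw ⟨j - 1, by omega⟩
      rw [hw] at h1
      have h2 : j - 1 + 1 = j := by omega
      simp only [h2] at h1
      rw [mulSer_map, PowerSeries.coeff_map]
      exact h1
  have h3 := f1.map (φ : MvPowerSeries (Fin m) W →+* MvPowerSeries (Fin m) W)
  rw [heq] at h3
  obtain ⟨V', v1, v2, v3⟩ := g1.inv g3
  have hU : PowerSeries.map (resd π m) (PowerSeries.map
      (φ : MvPowerSeries (Fin m) W →+* MvPowerSeries (Fin m) W) U) = PowerSeries.X := by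
    rw [map_map', hcr, fr]
  have hV' : PowerSeries.map (resd π m) V' = PowerSeries.X := by
    have h4 := congrArg (PowerSeries.map (resd π m)) v2
    rw [map_subst' (hs_zero g1.1), gr, map_X'] at h4
    have h5 : PowerSeries.subst (PowerSeries.X : PowerSeries k) (PowerSeries.map (resd π m) V') =
        PowerSeries.map (resd π m) V' := PowerSeries.X_subst _
    rw [h5] at h4
    exact h4
  refine ⟨φ, _, hφr, h3.comp v1, ?_⟩
  rw [map_subst' (hs_zero h3.1), hU, hV', PowerSeries.subst_X PowerSeries.HasSubst.X']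

end Pool.Agent.H86.LT
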